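import Pool.Agent.H99.CE.Defs

/-!
# The exact constant of the gap of the copolymer slope, upper half: targets (helper99)

Every `T_X` is a proposition to be proved in a module of its own. See `Defs.lean`.
-/

set_option autoImplicit false

open MeasureTheory ProbabilityTheory Filter Topology
open scoped ENNReal
open Pool.Agent.H95 Pool.Agent.H95.Cop Pool.Agent.H96.Cop

namespace Pool.Agent.H99.CE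

/-! ## A. Structure -/

/-- PFM: measurability, dependence, finiteness. -/
def T_PFM : Prop := (∀ w, WR w → (∀ s, Measurable (PF w s) ∧ DepLt s (PF w s) ∧ ∀ x, PF w s x ≠ ∞) ∧
    (∀ B j, Measurable (BX w B j) ∧ DepLt ((j + 1) * B) (BX w B j) ∧ ∀ x, BX w B j x ≠ ∞) ∧
    ∀ k p q a, Measurable (NX w k p q a) ∧ DepLt ((a + 1) * k) (NX w k p q a)) ∧
  ∀ K : PMF ℕ, (∀ B, WR (w1 K B)) ∧ ∀ B k, WR (w0 K B k)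

/-- PFD: decomposition at the first excursion with the weight `w'`. -/
def T_PFD : Prop := ∀ (w w' : ℕ → (ℕ → ℝ) → ℝ≥0∞) (s : ℕ) (x : ℕ → ℝ),
  PF (fun n x => w n x + w' n x) s x ≤ PF w s x + ∑ t ∈ Finset.range (s + 1),
    ∑ m ∈ Finset.Icc 1 s, if t + m ≤ s then PF w t x * (w' m (shift t x) *
      PF (fun n x => w n x + w' n x) (s - t - m) (shift (t + m) x)) else 0

/-- BDC: decomposition at the first excursion above the interface of more than `B` sites. -/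
def T_BDC : Prop := ∀ (K : PMF ℕ) (B B' : ℕ) (l : ℕ → ℝ≥0∞), 1 ≤ B → B ≤ B' →
  (∀ D m : ℕ, 1 ≤ D → B < m → m ≤ B' → (D - 1) * B < m → m < (D + 1) * B → pk K m * 2⁻¹ ≤ l D) →
  ∀ (j : ℕ) (x : ℕ → ℝ), BX (w1 K B') B j x ≤ BX (w1 K B) B j x +
    ∑ b ∈ Finset.range (j + 1), ∑ D ∈ Finset.Icc 1 j, if b + D ≤ j then BX (w1 K B) B b x *
      (l D * BX (w1 K B') B (j - b - D) (shift ((b + D) * B) x)) else 0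

/-- BBX: big boxes. -/
def T_BBX : Prop := ∀ (w : ℕ → (ℕ → ℝ) → ℝ≥0∞) (B M j : ℕ) (x : ℕ → ℝ), 1 ≤ B → 1 ≤ M →
  BX w (M * B) j x = ∑ i ∈ Finset.range M, ∑ r ∈ Finset.range M,
    if i ≤ j * M + r then BX w B (j * M + r - i) (shift (i * B) x) else 0

/-- INS: the chains of the polymer. -/
def T_INS : Prop := ∀ (K : PMF ℕ) (B M : ℕ) (l : ℕ → ℝ≥0∞), 1 ≤ B → 1 ≤ M →
  (∀ D m : ℕ, 1 ≤ D → B < m → m ≤ M * B → (D - 1) * B < m → m < (D + 1) * B →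
    pk K m * 2⁻¹ ≤ l D) → ∀ J j : ℕ, j < J →
  Chn B (J * M) (fun b => BX (w1 K B) B b) l (TT M j)
    (CT (BX (w1 K (M * B)) B) (TT M j)) (VT (BX (w1 K (M * B)) B) l B (TT M j) (J * M)) ∧
  ∀ x, BX (w1 K (M * B)) (M * B) j x ≤
    ∑ i ∈ Finset.range M, CT (BX (w1 K (M * B)) B) (TT M j) i (shift (i * B) x)

/-! ## B. Concave functions -/

/-- CCP: properties of the class. -/
def T_CCP : Prop := ∀ φ : ℝ≥0∞ → ℝ≥0∞, Cc φ → Monotone φ ∧ Measurable φ ∧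
  (∀ x y, φ (x + y) ≤ φ x + φ y) ∧ (∀ c x, 1 ≤ c → c ≠ ∞ → φ (c * x) ≤ c * φ x) ∧
  (∀ z, z ≠ ∞ → Cc fun x => φ (z * x)) ∧
  ∀ (P : Measure (ℕ → ℝ)) [IsProbabilityMeasure P] (f : (ℕ → ℝ) → ℝ≥0∞), Measurable f →
    ∀ A B : ℝ≥0∞, ∫⁻ x, φ (A + B * f x) ∂P ≤ φ (A + B * ∫⁻ x, f x ∂P)

/-- CCT: members of the class. -/
def T_CCT : Prop := (∀ θ : ℝ, 0 < θ → θ < 1 → Cc fun x => x ^ θ) ∧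
  (∀ t θ : ℝ, 0 < t → 0 < θ → θ < 1 → Cc (Hf t θ) ∧ Cc (Gf t θ)) ∧
  ∀ φ ψ : ℝ≥0∞ → ℝ≥0∞, Cc φ → Cc ψ → ∀ a b : ℝ≥0∞, a ≠ ∞ → b ≠ ∞ →
    Cc fun x => a * φ x + b * ψ x

/-- HFT: the function `Hf`. -/
def T_HFT : Prop := ∀ (t θ : ℝ) (x : ℝ≥0∞), 0 < t → 0 < θ → θ < 1 → Hf t θ x ≤ x ^ θ ∧
  (ENNReal.ofReal t < x → Hf t θ x = x ^ θ) ∧
  (x ≤ ENNReal.ofReal t → x ≤ ENNReal.ofReal (t ^ (1 - θ)) * x ^ θ)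

/-- GLO: lower bound of `Gf`. -/
def T_GLO : Prop := ∀ (t θ : ℝ) (x : ℝ≥0∞), 0 < t → 0 < θ → θ < 1 → x ≠ ∞ →
  x ^ θ * lg t x ≤ Gf t θ x

/-- PHI: upper bound of the Lyapunov function. -/
def T_PHI : Prop := ∀ (t t' θ A : ℝ) (x : ℝ≥0∞), 0 < t → t ≤ t' → 0 < θ → θ < 1 → 0 ≤ A → x ≠ ∞ →
  ENNReal.ofReal A * Gf t' θ x + ENNReal.ofReal (A * Real.log (t' / t)) * Hf t' θ x ≤
    x ^ θ * (ENNReal.ofReal A * lg t x + ENNReal.ofReal (2 * A / (1 - θ)))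

/-! ## C. The induction over the boxes -/

/-- IND: independence. -/
def T_IND : Prop := ∀ (ν : Measure ℝ) [IsProbabilityMeasure ν] (B : ℕ) (f : (ℕ → ℝ) → ℝ≥0∞)
  (Ψ : ℝ≥0∞ × (ℕ → ℝ) → ℝ≥0∞), Measurable f → DepLt B f → Measurable Ψ →
  ∫⁻ x, Ψ (f x, shift B x) ∂(iid ν) = ∫⁻ x, (∫⁻ y, Ψ (f x, y) ∂(iid ν)) ∂(iid ν) ∧
  ∫⁻ x, Ψ (f x, shift B x) ∂(iid ν) = ∫⁻ y, (∫⁻ x, Ψ (f x, y) ∂(iid ν)) ∂(iid ν)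

/-- LOW: the low boxes are replaced by their mean, the skeleton is split off. -/
def T_LOW : Prop := ∀ (ν : Measure ℝ) [IsProbabilityMeasure ν] (B L : ℕ)
  (F : ℕ → (ℕ → ℝ) → ℝ≥0∞) (l : ℕ → ℝ≥0∞) (T : Finset ℕ) (C V : ℕ → (ℕ → ℝ) → ℝ≥0∞),
  Chn B L F l T C V → ∀ φ : ℝ≥0∞ → ℝ≥0∞, Cc φ → ∀ tt lam : ℝ≥0∞,
  ∫⁻ x, FL F tt x ∂(iid ν) ≤ lam → ∀ (a a' : ℕ → ℝ≥0∞) (c cb : ℝ≥0∞),
  (∀ p < L, a p + lam * ∑ i ∈ Finset.range p, a' i * l (p - i) ≤ a' p) →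
  c + lam * ∑ p ∈ T ∩ Finset.range L, a' p ≤ cb →
  ∫⁻ x, φ (c + ∑ i ∈ Finset.range L, a i * C i (shift (i * B) x)) ∂(iid ν) ≤ φ cb +
    ∑ p ∈ Finset.range L, ∑ b ∈ Finset.range (L - p),
      ∫⁻ x, φ (a' p * (EE F tt b x * V (p + b) (shift ((b + 1) * B) x))) ∂(iid ν)

/-- VIN: the induction over the boxes. -/
def T_VIN : Prop := ∀ (ν : Measure ℝ) [IsProbabilityMeasure ν] (B M J : ℕ)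
  (F : ℕ → (ℕ → ℝ) → ℝ≥0∞) (l : ℕ → ℝ≥0∞) (C V : ℕ → ℕ → (ℕ → ℝ) → ℝ≥0∞) (φ : ℝ≥0∞ → ℝ≥0∞)
  (tt lam : ℝ≥0∞) (Kb : ℕ → ℝ≥0∞) (θ : ℝ) (u : ℝ≥0∞ → ℝ≥0∞) (e1 Es mh uh kh v w : ℝ≥0∞),
  VH ν B M J F l C V φ tt lam Kb θ u e1 Es mh uh kh v w →
  ∀ q < J * M, ∀ z, z ≠ ∞ → ∑ j ∈ Finset.range J, ∫⁻ x, φ (z * V j q x) ∂(iid ν) ≤
    z ^ θ * (u z * v + w)

/-- ASP: one step for a concave function. -/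
def T_ASP : Prop := ∀ (ν : Measure ℝ) [IsProbabilityMeasure ν] (B M J : ℕ)
  (F : ℕ → (ℕ → ℝ) → ℝ≥0∞) (l : ℕ → ℝ≥0∞) (C V : ℕ → ℕ → (ℕ → ℝ) → ℝ≥0∞) (φ : ℝ≥0∞ → ℝ≥0∞)
  (tt lam : ℝ≥0∞) (Kb : ℕ → ℝ≥0∞) (θ : ℝ) (u : ℝ≥0∞ → ℝ≥0∞) (e1 Es mh uh kh v w : ℝ≥0∞),
  VH ν B M J F l C V φ tt lam Kb θ u e1 Es mh uh kh v w → ∀ Sh : ℝ≥0∞,
  ∑ p ∈ Finset.range (J * M), mx θ (ab lam Kb M p) ≤ Sh →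
  ∑ j ∈ Finset.range J, ∫⁻ x, φ (∑ i ∈ Finset.range M, C j i (shift (i * B) x)) ∂(iid ν) ≤
    ∑ j ∈ Finset.range J, φ (lam * ∑ p ∈ TT M j, ab lam Kb M p) + Sh * (uh * v + mh * w)

/-! ## D. The kernels -/

/-- LNK: the links. -/
def T_LNK : Prop := ∀ (K : PMF ℕ) (α c δ : ℝ) (n0 B M : ℕ), 0 < α → 0 < c → 0 < δ →
  Reg K α c δ n0 → 1 ≤ B → n0 ≤ B → ∀ D m : ℕ, 1 ≤ D → B < m → m ≤ M * B → (D - 1) * B < m →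
  m < (D + 1) * B → pk K m * 2⁻¹ ≤ ld α (tb α c δ B) δ M D

/-- SUP: the kernel with the low boxes. -/
def T_SUP : Prop := ∀ (α t δ P η : ℝ) (M : ℕ), 0 < α → α ≤ 1 / 2 → 0 < t → 0 < δ → 0 ≤ P →
  36 * α * P ≤ η → η ≤ 1 → 36 * α * P ≤ δ → ∀ D : ℕ, 1 ≤ D →
  ld α t δ M D + ENNReal.ofReal (α ^ 2 * P * t) *
    ∑ i ∈ Finset.Ico 1 D, Kd α t η M i * ld α t δ M (D - i) ≤ Kd α t η M D

/-- KHT: sum of the powers of the kernel. -/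
def T_KHT : Prop := ∀ (α t θ s η : ℝ) (M L : ℕ), 0 < α → 0 < t → 0 < θ → θ < 1 →
  (1 + α) * θ = 1 + s → 0 < s → 0 ≤ η → η ≤ 1 → 1 ≤ M →
  ∑ D ∈ Finset.Icc 1 L, Kd α t η M D ^ θ ≤
    ENNReal.ofReal (t ^ (-θ) * (2 + Real.log M + η ^ θ * (1 + 1 / s)))

/-- SHT: the starts. -/
def T_SHT : Prop := ∀ (α t θ s η P : ℝ) (M L : ℕ), 0 < α → α ≤ 1 / 2 → 0 < t → 0 < θ → θ < 1 →
  (1 + α) * θ = 1 + s → 0 < s → 0 ≤ η → η ≤ 1 → 0 ≤ P → 2 * α * P ≤ 1 → 1 ≤ M →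
  ∑ p ∈ Finset.range L, mx θ (ab (ENNReal.ofReal (α ^ 2 * P * t)) (Kd α t η M) M p) ≤
    ENNReal.ofReal (M * (1 + 2 * α * P + (2 * α * P) ^ θ + (α ^ 2 * P * η) ^ θ * (1 + 1 / s)))

/-- EST: the ends. -/
def T_EST : Prop := ∀ (α t θ s η P : ℝ) (M J q : ℕ), 0 < α → α ≤ 1 / 2 → 0 < t → 0 < θ → θ < 1 →
  (1 + α) * θ = 1 + s → 0 < s → 0 ≤ η → η ≤ 1 → 0 ≤ P → 2 * α * P ≤ 1 → 1 ≤ M →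
  ∑ j ∈ Finset.range J,
    mx θ (eb (ENNReal.ofReal (α ^ 2 * P * t)) (Kd α t η M) (TT M j) (J * M) q) ≤
    ENNReal.ofReal (1 + 2 * α * P + (2 * α * P) ^ θ + (α ^ 2 * P * η) ^ θ * (1 + 1 / s))

/-- CBT: the chains of low boxes only. -/
def T_CBT : Prop := ∀ (α t θ s η P : ℝ) (M J : ℕ), 0 < α → α ≤ 1 / 2 → 0 < t → 0 < θ → θ < 1 →
  (1 + α) * θ = 1 + s → 0 < s → 0 ≤ η → η ≤ 1 → 0 ≤ P → 2 * α * P ≤ 1 → 1 ≤ M →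
  ∑ j ∈ Finset.range J, (ENNReal.ofReal (α ^ 2 * P * t) *
    ∑ p ∈ TT M j, ab (ENNReal.ofReal (α ^ 2 * P * t)) (Kd α t η M) M p) ^ θ ≤
    ENNReal.ofReal ((α ^ 2 * P * t * M) ^ θ * (4 + 1 / s)) ∧
  ∀ j : ℕ, ENNReal.ofReal (α ^ 2 * P * t) *
    ∑ p ∈ TT M j, ab (ENNReal.ofReal (α ^ 2 * P * t)) (Kd α t η M) M p ≤
    ENNReal.ofReal (2 * (α ^ 2 * P * t * M))

/-! ## E. One step -/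

/-- REX: the renewal inequality for the moments. -/
def T_REX : Prop := ∀ (f l y : ℕ → ℝ≥0∞) (fh lh : ℝ≥0∞), (∀ e, y e ≤ f e +
    ∑ b ∈ Finset.range (e + 1), ∑ D ∈ Finset.Icc 1 e,
      if b + D ≤ e then f b * (l D * y (e - b - D)) else 0) →
  (∀ n, ∑ b ∈ Finset.range n, f b ≤ fh) → (∀ n, ∑ D ∈ Finset.Icc 1 n, l D ≤ lh) →
  fh * lh ≤ 4⁻¹ → (∀ n, ∑ e ∈ Finset.range n, y e ≤ 2 * fh) ∧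
  ∀ f1 l1 : ℝ≥0∞, (∀ n, ∑ b ∈ Finset.range n, (b : ℝ≥0∞) * f b ≤ f1) →
    (∀ n, ∑ D ∈ Finset.Icc (1 : ℕ) n, (D : ℝ≥0∞) * l D ≤ l1) →
    ∀ n, ∑ e ∈ Finset.range n, (e : ℝ≥0∞) * y e ≤ 2 * (f1 + fh ^ 2 * l1)

/-- STR: the stretches over several boxes. -/
def T_STR : Prop := ∀ (K : PMF ℕ) (ν : Measure ℝ) [IsProbabilityMeasure ν] (B M : ℕ)
  (l : ℕ → ℝ≥0∞) (θ : ℝ), 1 ≤ B → 1 ≤ M → 0 < θ → θ ≤ 1 →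
  (∀ D m : ℕ, 1 ≤ D → B < m → m ≤ M * B → (D - 1) * B < m → m < (D + 1) * B →
    pk K m * 2⁻¹ ≤ l D) → ∀ fh lh f1 l1 : ℝ≥0∞,
  (∀ n, ∑ b ∈ Finset.range n, ∫⁻ x, BX (w1 K B) B b x ^ θ ∂(iid ν) ≤ fh) →
  (∀ n, ∑ D ∈ Finset.Icc 1 n, l D ^ θ ≤ lh) → fh * lh ≤ 4⁻¹ →
  (∀ n, ∑ b ∈ Finset.range n, (b : ℝ≥0∞) * ∫⁻ x, BX (w1 K B) B b x ^ θ ∂(iid ν) ≤ f1) →
  (∀ n, ∑ D ∈ Finset.Icc (1 : ℕ) n, (D : ℝ≥0∞) * l D ^ θ ≤ l1) →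
  (∀ n, ∑ e ∈ Finset.range n, ∫⁻ x, BX (w1 K (M * B)) B e x ^ θ ∂(iid ν) ≤ 2 * fh) ∧
  ∀ J, ∑ j ∈ Finset.range J, (j : ℝ≥0∞) * ∫⁻ x, BX (w1 K (M * B)) (M * B) j x ^ θ ∂(iid ν) ≤
    2 * (f1 + fh ^ 2 * l1)

/-- NAT: units. -/
def T_NAT : Prop := ∀ (α σ c δ : ℝ) (k B M : ℕ), 0 < α → 0 < σ → 0 < c → 0 < δ → 1 ≤ k → k ≤ B →
  1 ≤ M → 0 < na α σ c δ k B ∧ 0 < tb α c δ B ∧ na α σ c δ k (M * B) = M * na α σ c δ k B ∧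
  tb α c δ (M * B) = (M : ℝ) ^ (1 + α) * tb α c δ B ∧
  na α σ c δ k B = α ^ 2 * tb α c δ B ^ th α σ * ((k : ℝ) / B) ^ sg α σ ∧
  (1 + α) * th α σ = 1 + sg α σ ∧ 0 < sg α σ ∧
  na α σ c δ k B ≤ α ^ 2 * tb α c δ B ^ th α σ

/-- STL: the mean of the low stretches. -/
def T_STL : Prop := ∀ (K : PMF ℕ) (ν : Measure ℝ) [IsProbabilityMeasure ν] (α σ c δ P : ℝ)
  (k B : ℕ), 0 < α → 0 < σ → th α σ < 1 → 0 < c → 0 < δ → 1 ≤ k → k ≤ B → 0 ≤ P →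
  QT K ν α σ c δ k B ≤ ENNReal.ofReal P →
  ∫⁻ x, FL (fun b => BX (w1 K B) B b) (ENNReal.ofReal (tb α c δ B)) x ∂(iid ν) ≤
    ENNReal.ofReal (α ^ 2 * P * tb α c δ B)

/-- STM: the masses of the skeleton. -/
def T_STM : Prop := ∀ (K : PMF ℕ) (ν : Measure ℝ) [IsProbabilityMeasure ν] (α σ c δ : ℝ)
  (k B : ℕ), 0 < α → 0 < σ → th α σ < 1 → 0 < c → 0 < δ → 1 ≤ k → k ≤ B → ∀ n : ℕ,
  ∑ b ∈ Finset.range n, ∫⁻ x,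
    EE (fun b => BX (w1 K B) B b) (ENNReal.ofReal (tb α c δ B)) b x ^ th α σ ∂(iid ν) ≤
    ENNReal.ofReal (na α σ c δ k B) * (QN K ν α σ c δ k B + QR K ν α σ c δ k B) ∧
  ∑ b ∈ Finset.range n, ∫⁻ x,
    EE (fun b => BX (w1 K B) B b) (ENNReal.ofReal (tb α c δ B)) b x ^ th α σ *
      (ENNReal.ofReal (α ^ 2) * lg (tb α c δ B)
        (EE (fun b => BX (w1 K B) B b) (ENNReal.ofReal (tb α c δ B)) b x)) ∂(iid ν) ≤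
    ENNReal.ofReal (na α σ c δ k B) * QG K ν α σ c δ k B

/-- SR1: the new stretches over several boxes. -/
def T_SR1 : Prop := ∀ (K : PMF ℕ) (ν : Measure ℝ) [IsProbabilityMeasure ν]
  (α σ c δ h P ε X : ℝ) (M n0 k B : ℕ), Par α σ δ h P ε M X → 0 < c → Reg K α c δ n0 → 1 ≤ k →
  k ≤ B → n0 ≤ B → QT K ν α σ c δ k B ≤ ENNReal.ofReal P → QR K ν α σ c δ k B ≤ ENNReal.ofReal P →
  QR K ν α σ c δ k (M * B) ≤ ENNReal.ofReal ε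

/-- ST1: the new total moment. -/
def T_ST1 : Prop := ∀ (K : PMF ℕ) (ν : Measure ℝ) [IsProbabilityMeasure ν]
  (α σ c δ h P ε X : ℝ) (M n0 k B : ℕ), Par α σ δ h P ε M X → 0 < c → Reg K α c δ n0 → 1 ≤ k →
  k ≤ B → n0 ≤ B → ((B : ℝ) / k) ^ sg α σ ≤ X → QT K ν α σ c δ k B ≤ ENNReal.ofReal P →
  ∀ p : ℝ, 0 ≤ p → p ≤ 2 * P → QN K ν α σ c δ k B + QR K ν α σ c δ k B ≤ ENNReal.ofReal p →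
  QT K ν α σ c δ k (M * B) ≤ ENNReal.ofReal ((1 + ε) ^ 2 * p / (1 - (1 + ε) * h * p) + ε)

/-- ST2: the new logarithmic moment. -/
def T_ST2 : Prop := ∀ (K : PMF ℕ) (ν : Measure ℝ) [IsProbabilityMeasure ν]
  (α σ c δ h P ε X : ℝ) (M n0 k B : ℕ), Par α σ δ h P ε M X → 0 < c → Reg K α c δ n0 → 1 ≤ k →
  k ≤ B → n0 ≤ B → ((B : ℝ) / k) ^ sg α σ ≤ X → QT K ν α σ c δ k B ≤ ENNReal.ofReal P →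
  ∀ p g : ℝ, 0 ≤ p → p ≤ 2 * P → 0 ≤ g →
  QN K ν α σ c δ k B + QR K ν α σ c δ k B ≤ ENNReal.ofReal p →
  QG K ν α σ c δ k B ≤ ENNReal.ofReal g →
  QG K ν α σ c δ k (M * B) + ENNReal.ofReal h * QN K ν α σ c δ k (M * B) ≤
    ENNReal.ofReal ((1 + ε) ^ 2 * g / (1 - (1 + ε) * h * p) ^ 2 + 2 * ε)

/-- LYA: the sequences of the moments. -/
def T_LYA : Prop := ∀ δ0 : ℝ, 0 < δ0 → δ0 ≤ 1 / 2 → ∃ C κ : ℝ, 1 ≤ C ∧ 0 < κ ∧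
  ∀ (ε h Nb : ℝ) (J : ℕ), 0 < ε → ε ≤ 3 → 0 < h → 1 ≤ Nb → h * Nb ≤ κ → J * ε * Nb ≤ κ →
  ∀ N T R G : ℕ → ℝ, (∀ j, 0 ≤ N j ∧ N j ≤ T j ∧ 0 ≤ R j ∧ 0 ≤ G j) →
  T 0 ≤ Nb → R 0 ≤ Nb → G 0 ≤ 1 / 2 - δ0 →
  (∀ j < J, T j ≤ C * Nb → R j ≤ C * Nb → R (j + 1) ≤ ε ∧
    T (j + 1) ≤ (1 + ε) * (N j + R j) / (1 - (1 + ε) * h * (N j + R j)) + ε ∧
    G (j + 1) + h * N (j + 1) ≤
      (1 + ε) * G j / (1 - (1 + ε) * h * (N j + R j)) ^ 2 + ε) →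
  ∀ j ≤ J, T j ≤ C * Nb ∧ R j ≤ C * Nb

/-- SCL: all scales. -/
def T_SCL : Prop := ∀ δ0 : ℝ, 0 < δ0 → δ0 ≤ 1 / 2 → ∃ C κ : ℝ, 1 ≤ C ∧ 0 < κ ∧
  ∀ (K : PMF ℕ) (ν : Measure ℝ) [IsProbabilityMeasure ν] (α σ c δ h Nb ε X : ℝ)
  (M J n0 k B : ℕ), Par α σ δ h (C * Nb) ε M X → 1 ≤ Nb → h * Nb ≤ κ → J * ε * Nb ≤ κ → 0 < c →
  Reg K α c δ n0 → 1 ≤ k → k ≤ B → n0 ≤ B → (((M ^ J * B : ℕ) : ℝ) / k) ^ sg α σ ≤ X →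
  QT K ν α σ c δ k B ≤ ENNReal.ofReal Nb → QR K ν α σ c δ k B ≤ ENNReal.ofReal Nb →
  QG K ν α σ c δ k B ≤ ENNReal.ofReal (1 / 2 - δ0) →
  QT K ν α σ c δ k (M ^ J * B) ≤ ENNReal.ofReal (C * Nb)

/-! ## F. The free energy -/

/-- WPF: the partition function with free end. -/
def T_WPF : Prop := ∀ K : PMF ℕ, K 0 = 0 → ∀ (N B : ℕ), N ≤ B → ∀ x : ℕ → ℝ,
  Wn K N x ≤ ∑ s ∈ Finset.range (N + 1), PF (w1 K B) s x * (1 + ex s N x)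

/-- FCR: the criterion. -/
def T_FCR : Prop := ∀ K : PMF ℕ, K 0 = 0 → ∀ (ν : Measure ℝ) [IsProbabilityMeasure ν]
  (α σ c δ P : ℝ) (n0 k B : ℕ), 0 < α → 0 < σ → th α σ < 1 → 0 < c → 0 < δ → Reg K α c δ n0 →
  1 ≤ k → k ≤ B → n0 ≤ B → 0 ≤ P → QT K ν α σ c δ k B ≤ ENNReal.ofReal P →
  4 * (α ^ 2 * P * ((k : ℝ) / B) ^ sg α σ * (3 + 1 / sg α σ)) ≤ 1 → Mo ν (th α σ) ≤ 1 →
  ∃ C : ℝ, 0 ≤ C ∧ ∀ N : ℕ, ∫⁻ x, Wn K N x ^ th α σ ∂(iid ν) ≤ ENNReal.ofReal C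

/-- NEG: the free energy is not positive. -/
def T_NEG : Prop := ∀ K : PMF ℕ, ∀ (μ : Measure ℝ) [IsProbabilityMeasure μ],
  (∀ t : ℝ, Integrable (fun z => Real.exp (t * z)) μ) → ∀ lam h θ C : ℝ, 0 < θ → 0 ≤ C →
  (∀ N : ℕ, ∫⁻ x, Wn K N x ^ θ ∂(iid (chargeLaw μ lam h)) ≤ ENNReal.ofReal C) →
  ∀ f : ℝ, HasFreeEnergy K μ lam h f → f ≤ 0

/-! ## G. The base -/

/-- MO1: first moments of the neutral stretches. -/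
def T_MO1 : Prop := ∀ (ν : Measure ℝ) [IsProbabilityMeasure ν] (K : PMF ℕ) (B k : ℕ)
  (Bd : ℝ≥0∞), 1 ≤ Bd → Mo ν 1 ≤ Bd → ∀ (p q : Bool) (a : ℕ),
  ∫⁻ x, NX (w0 K B k) k p q a x ∂(iid ν) ≤ Bd ^ (2 * k) * Vn (kc K B k Bd) k a

/-- CDC: decomposition at the first excursion below the interface of more than `k` sites. -/
def T_CDC : Prop := ∀ (K : PMF ℕ) (B k : ℕ) (g : ℕ → ℝ≥0∞), 1 ≤ k →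
  (∀ D m : ℕ, 1 ≤ D → k < m → (D - 1) * k < m → m < (D + 1) * k → pk K m * 2⁻¹ ≤ g D) →
  ∀ (p : Bool) (j : ℕ) (x : ℕ → ℝ), NX (w1 K B) k p false j x ≤ NX (w0 K B k) k p false j x +
    ∑ i ∈ Finset.range (j + 1), ∑ D ∈ Finset.Icc 1 j, if i + D ≤ j then
      NX (w0 K B k) k p true i x * (g D * ex ((i + 1) * k) ((i + D) * k) x *
        NX (w1 K B) k true false (j - i - D) (shift ((i + D) * k) x)) else 0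

/-- BFM: the chains of the base. -/
def T_BFM : Prop := ∀ (K : PMF ℕ) (n0 k : ℕ) (g : ℕ → ℝ≥0∞), 1 ≤ k → 1 ≤ n0 →
  (∀ D m : ℕ, 1 ≤ D → k < m → (D - 1) * k < m → m < (D + 1) * k → pk K m * 2⁻¹ ≤ g D) →
  ∀ J j : ℕ, j < J →
  Bch k (J * n0) (NX (w0 K (n0 * k) k) k true false) (NX (w0 K (n0 * k) k) k true true) g
    (TT n0 j) (CT (NX (w1 K (n0 * k)) k true false) (TT n0 j)) ∧
  ∀ x, BX (w1 K (n0 * k)) (n0 * k) j x ≤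
    (∑ c ∈ Finset.range n0, ∑ c' ∈ TT n0 j, if c ≤ c' then
      NX (w0 K (n0 * k) k) k false false (c' - c) (shift (c * k) x) else 0) +
    ∑ i ∈ Finset.range (J * n0), ∑ D ∈ Finset.Icc 1 (J * n0 - 1 - i),
      (∑ c ∈ Finset.range (min n0 (i + 1)),
        NX (w0 K (n0 * k) k) k false true (i - c) (shift (c * k) x)) *
      (g D * ex ((i + 1) * k) ((i + D) * k) x *
        CT (NX (w1 K (n0 * k)) k true false) (TT n0 j) (i + D) (shift ((i + D) * k) x))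

/-- BVN: the induction over the cells. -/
def T_BVN : Prop := ∀ (ν : Measure ℝ) [IsProbabilityMeasure ν] (k n0 J : ℕ)
  (Ne Np : ℕ → (ℕ → ℝ) → ℝ≥0∞) (g : ℕ → ℝ≥0∞) (V : ℕ → ℕ → (ℕ → ℝ) → ℝ≥0∞) (Vb : ℕ → ℝ≥0∞)
  (φ : ℝ≥0∞ → ℝ≥0∞) (θ : ℝ) (u up : ℝ≥0∞ → ℝ≥0∞) (e1 T0 : ℝ≥0∞) (ω : ℕ → ℝ≥0∞)
  (Es qq qu v w : ℝ≥0∞), BH ν k n0 J Ne Np g V Vb φ θ u up e1 T0 ω Es qq qu v w →
  ∀ p < J * n0, ∀ z, z ≠ ∞ → ∑ j ∈ Finset.Ico (p / n0) J,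
    ω (j - p / n0) * ∫⁻ x, φ (z * V j p x) ∂(iid ν) ≤ z ^ θ * (u z * v + w)

/-- BAS: the base for a concave function. -/
def T_BAS : Prop := ∀ (ν : Measure ℝ) [IsProbabilityMeasure ν] (k n0 J : ℕ)
  (Ne Np : ℕ → (ℕ → ℝ) → ℝ≥0∞) (g : ℕ → ℝ≥0∞) (V : ℕ → ℕ → (ℕ → ℝ) → ℝ≥0∞) (Vb : ℕ → ℝ≥0∞)
  (φ : ℝ≥0∞ → ℝ≥0∞) (θ : ℝ) (u up : ℝ≥0∞ → ℝ≥0∞) (e1 T0 : ℝ≥0∞) (ω : ℕ → ℝ≥0∞)
  (Es qq qu v w : ℝ≥0∞), BH ν k n0 J Ne Np g V Vb φ θ u up e1 T0 ω Es qq qu v w →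
  ∀ Nn Ns F : ℕ → (ℕ → ℝ) → ℝ≥0∞, (∀ a, Measurable (Nn a)) →
  (∀ a, Measurable (Ns a) ∧ DepLt ((a + 1) * k) (Ns a)) →
  (∀ a, ∫⁻ x, Nn a x ∂(iid ν) ≤ Vb a) → (∀ a, ∫⁻ x, Ns a x ∂(iid ν) ≤ Vb a) →
  (∀ j < J, ∀ x, F j x ≤ (∑ c ∈ Finset.range n0, ∑ c' ∈ TT n0 j,
      if c ≤ c' then Nn (c' - c) (shift (c * k) x) else 0) +
    ∑ i ∈ Finset.range (J * n0), ∑ D ∈ Finset.Icc 1 (J * n0 - 1 - i),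
      (∑ c ∈ Finset.range (min n0 (i + 1)), Ns (i - c) (shift (c * k) x)) *
      (g D * ex ((i + 1) * k) ((i + D) * k) x * V j (i + D) (shift ((i + D) * k) x))) →
  (∀ i D y, y ≠ ∞ → u (sb Vb n0 i * g D * y) ≤ up y) → ∀ Sm Su : ℝ≥0∞,
  ∑ i ∈ Finset.range (J * n0), ∑ D ∈ Finset.Icc 1 (J * n0), ω ((i + D) / n0) *
    ((sb Vb n0 i * g D) ^ θ * ∫⁻ x, ex 0 ((D - 1) * k) x ^ θ ∂(iid ν)) ≤ Sm →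
  ∑ i ∈ Finset.range (J * n0), ∑ D ∈ Finset.Icc 1 (J * n0), ω ((i + D) / n0) *
    ((sb Vb n0 i * g D) ^ θ *
      ∫⁻ x, ex 0 ((D - 1) * k) x ^ θ * up (ex 0 ((D - 1) * k) x) ∂(iid ν)) ≤ Su →
  ∑ j ∈ Finset.range J, ω j * ∫⁻ x, φ (F j x) ∂(iid ν) ≤
    ∑ j ∈ Finset.range J, ω j * φ (∑ c ∈ Finset.range n0, eT Vb (TT n0 j) c) +
      (Su * v + Sm * w)

/-- LNG: the long excursions below the interface. -/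
def T_LNG : Prop := ∀ (K : PMF ℕ) (α c δ : ℝ) (n1 k : ℕ), 0 < α → 0 < c → 0 < δ →
  Reg K α c δ n1 → 1 ≤ k → n1 ≤ k → ∀ D m : ℕ, 1 ≤ D → k < m → (D - 1) * k < m →
  m < (D + 1) * k → pk K m * 2⁻¹ ≤ gd α c δ k D

/-- VPT: pointwise bound of the neutral masses. -/
def T_VPT : Prop := ∀ K : PMF ℕ, K 0 = 0 → ∀ (α c δ b : ℝ) (n1 k n0 : ℕ), 0 < α →
  α ≤ 1 / 2 ^ 50 → 0 < c → 0 < δ → δ ≤ 1 / 20 → Reg K α c δ n1 → 1 ≤ k → n1 ≤ k →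
  (n1 : ℝ) ≤ c * (k : ℝ) ^ (1 - α) → 0 ≤ b → b * k ≤ δ → 1 ≤ n0 →
  Vb K n0 k b 0 ≤ ENNReal.ofReal ((k : ℝ) ^ (1 + α) / c * (6 * α)) ∧
  ∀ a : ℕ, 1 ≤ a → Vb K n0 k b a ≤
    ENNReal.ofReal ((k : ℝ) ^ (1 + α) / c * (2 ^ 21 * (α ^ 2 * (1 + (a : ℝ)) ^ (-(1 + α)))))

/-- TMN: truncated means. -/
def T_TMN : Prop := ∀ K : PMF ℕ, K 0 = 0 → ∀ (α c δ : ℝ) (n1 N : ℕ), 0 < α → α ≤ 1 / 20 →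
  0 < c → 0 < δ → δ ≤ 1 / 20 → Reg K α c δ n1 → 1 ≤ N → (n1 : ℝ) ≤ c * (N : ℝ) ^ (1 - α) →
  n1 ≤ N → (∑ m ∈ Finset.Icc 1 N, (m : ℝ) * kk K m ≤ 3 * c * (N : ℝ) ^ (1 - α)) ∧
  ∑ m ∈ Finset.Icc 1 N, kk K m ≤ 1 - (1 - δ) * (1 - α) * (c / α) * (N : ℝ) ^ (-α)

/-- MSS: the tilted neutral mass. -/
def T_MSS : Prop := ∀ K : PMF ℕ, K 0 = 0 → ∀ (α c δ b : ℝ) (n1 k n0 : ℕ), 0 < α →
  5 * α ≤ δ → 0 < c → 0 < δ → δ ≤ 1 / 20 → Reg K α c δ n1 → 1 ≤ k → n1 ≤ k →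
  (n1 : ℝ) ≤ c * (k : ℝ) ^ (1 - α) → 0 ≤ b → b * k ≤ δ → 2 ≤ n0 → α * Real.log n0 ≤ δ * n0 →
  ∀ n : ℕ, ∑ a ∈ Finset.range n, Vb K n0 k b a * ENNReal.ofReal ((n0 : ℝ) ^ (α * a / n0)) ≤
    ENNReal.ofReal (mb α c δ k)

/-- EBT: the ends. -/
def T_EBT : Prop := ∀ (Vb : ℕ → ℝ≥0∞) (m α θ δ : ℝ) (n0 : ℕ), 0 < α → 5 * α ≤ δ → δ ≤ 1 / 20 →
  1 - α ≤ θ → θ < 1 → 0 < m → 2 ≤ n0 → (n0 : ℝ) ^ (-(α * θ)) ≤ δ / 100 →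
  (∀ n, ∑ a ∈ Finset.range n, Vb a * ENNReal.ofReal ((n0 : ℝ) ^ (α * a / n0)) ≤
    ENNReal.ofReal m) → (∀ j p, eT Vb (TT n0 j) p ≤ ENNReal.ofReal m) ∧
  (∀ J p, ∑ j ∈ Finset.Ico (p / n0) J, eT Vb (TT n0 j) p ^ θ ≤
    ENNReal.ofReal ((1 + δ) * m ^ θ)) ∧
  ∀ J p, ∑ j ∈ Finset.Ico (p / n0) J, om (j - p / n0) * eT Vb (TT n0 j) p ^ θ ≤
    ENNReal.ofReal (4 * m ^ θ)

/-- SBT: the starts. -/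
def T_SBT : Prop := ∀ (Vb : ℕ → ℝ≥0∞) (m α θ δ : ℝ) (n0 : ℕ), 0 < α → 5 * α ≤ δ → δ ≤ 1 / 20 →
  1 - α ≤ θ → θ < 1 → 0 < m → 2 ≤ n0 → (n0 : ℝ) ^ (-(α * θ)) ≤ δ / 100 →
  (∀ n, ∑ a ∈ Finset.range n, Vb a * ENNReal.ofReal ((n0 : ℝ) ^ (α * a / n0)) ≤
    ENNReal.ofReal m) → (∀ i, sb Vb n0 i ≤ ENNReal.ofReal m) ∧
  (∀ L, ∑ i ∈ Finset.range L, sb Vb n0 i ^ θ ≤ ENNReal.ofReal ((1 + δ) * n0 * m ^ θ)) ∧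
  ∀ L, ∑ i ∈ Finset.range L, om (i / n0) * sb Vb n0 i ^ θ ≤ ENNReal.ofReal (4 * n0 * m ^ θ)

/-- NNT: the neutral stretches from the first box. -/
def T_NNT : Prop := ∀ (Vb : ℕ → ℝ≥0∞) (m α θ δ : ℝ) (n0 : ℕ), 0 < α → 5 * α ≤ δ → δ ≤ 1 / 20 →
  1 - α ≤ θ → θ < 1 → 0 < m → 2 ≤ n0 → (n0 : ℝ) ^ (-(α * θ)) ≤ δ / 100 →
  (∀ n, ∑ a ∈ Finset.range n, Vb a * ENNReal.ofReal ((n0 : ℝ) ^ (α * a / n0)) ≤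
    ENNReal.ofReal m) →
  (∀ j, ∑ c ∈ Finset.range n0, eT Vb (TT n0 j) c ≤ ENNReal.ofReal (n0 * m)) ∧
  ∀ J, ∑ j ∈ Finset.range J, om j * (∑ c ∈ Finset.range n0, eT Vb (TT n0 j) c) ^ θ ≤
    ENNReal.ofReal (4 * (n0 * m) ^ θ)

/-- VTH: the gaps. -/
def T_VTH : Prop := ∀ (Vb : ℕ → ℝ≥0∞) (m Z α θ s δ : ℝ) (n0 : ℕ), 0 < α → α ≤ 1 / 2 ^ 50 →
  5 * α ≤ δ → δ ≤ 1 / 20 → 1 - α ≤ θ → θ < 1 → (1 + α) * θ = 1 + s → 0 < s → 0 < Z → 0 < m →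
  m ≤ 4 * α * Z → 2 ≤ n0 → (n0 : ℝ) ^ (-(α * θ)) ≤ δ / 100 →
  (∀ n, ∑ a ∈ Finset.range n, Vb a * ENNReal.ofReal ((n0 : ℝ) ^ (α * a / n0)) ≤
    ENNReal.ofReal m) → Vb 0 ≤ ENNReal.ofReal (Z * (6 * α)) →
  (∀ a : ℕ, 1 ≤ a → Vb a ≤
    ENNReal.ofReal (Z * (2 ^ 21 * (α ^ 2 * (1 + (a : ℝ)) ^ (-(1 + α)))))) →
  ∀ L, ∑ a ∈ Finset.range L, om (a / n0 + 1) * Vb a ^ θ ≤
    ENNReal.ofReal (Z ^ θ * (64 * α + 2 ^ 23 * α ^ 2 * (1 + Real.log n0)))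

/-- GHT: the moments of the long excursions. -/
def T_GHT : Prop := ∀ (ν : Measure ℝ) [IsProbabilityMeasure ν] (α σ d δ c b : ℝ) (n0 k : ℕ),
  0 < α → α ≤ 1 → 0 < σ → 0 < th α σ → 0 < c → 0 < δ → δ ≤ 1 / 2 → σ < d → 1 ≤ k → 1 ≤ n0 →
  kp α σ d δ ≤ 1 → 10 ≤ n0 * kp α σ d δ → Env ν α σ d δ k b → ∀ L : ℕ,
  ∑ D ∈ Finset.Icc 1 L, om (D / n0 + 1) *
    (gd α c δ k D ^ th α σ * ∫⁻ x, ex 0 ((D - 1) * k) x ^ th α σ ∂(iid ν)) ≤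
    ENNReal.ofReal (((1 + δ) * c / 2 * (k : ℝ) ^ (-(1 + α))) ^ th α σ *
      (6 + 2 * Real.log (1 / kp α σ d δ)))

/-- GMU: the logarithmic moments of the long excursions. -/
def T_GMU : Prop := ∀ (ν : Measure ℝ) [IsProbabilityMeasure ν] (α σ d δ c b : ℝ) (k : ℕ),
  0 < α → α ≤ 1 → 0 < σ → 0 < th α σ → 0 < c → 0 < δ → δ ≤ 1 / 2 → σ < d → 1 ≤ k →
  Env ν α σ d δ k b → ∀ L : ℕ, ∑ D ∈ Finset.Icc 1 L, gd α c δ k D ^ th α σ *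
    ∫⁻ x, ex 0 ((D - 1) * k) x ^ th α σ *
      (ENNReal.ofReal (α ^ 2) * lg 1 (ex 0 ((D - 1) * k) x)) ∂(iid ν) ≤
    ENNReal.ofReal (((1 + δ) * c / 2 * (k : ℝ) ^ (-(1 + α))) ^ th α σ *
      ((1 + δ) / ((1 - δ) * th α σ * (d - σ))))

/-- BT0: the base, total moments. -/
def T_BT0 : Prop := ∀ K : PMF ℕ, K 0 = 0 → ∀ (ν : Measure ℝ) [IsProbabilityMeasure ν]
  (α σ d δ c b Nb g0 : ℝ) (n0 n1 k : ℕ), BPar α σ d δ n0 Nb g0 → 0 < c → Reg K α c δ n1 →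
  1 ≤ k → n1 ≤ k → (n1 : ℝ) ≤ c * (k : ℝ) ^ (1 - α) → Env ν α σ d δ k b →
  QT K ν α σ c δ k (n0 * k) ≤ ENNReal.ofReal Nb ∧ QR K ν α σ c δ k (n0 * k) ≤ ENNReal.ofReal Nb

/-- BG0: the base, logarithmic moment. -/
def T_BG0 : Prop := ∀ K : PMF ℕ, K 0 = 0 → ∀ (ν : Measure ℝ) [IsProbabilityMeasure ν]
  (α σ d δ c b Nb g0 : ℝ) (n0 n1 k : ℕ), BPar α σ d δ n0 Nb g0 → 0 < c → Reg K α c δ n1 →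
  1 ≤ k → n1 ≤ k → (n1 : ℝ) ≤ c * (k : ℝ) ^ (1 - α) → Env ν α σ d δ k b →
  QG K ν α σ c δ k (n0 * k) ≤ ENNReal.ofReal g0

/-! ## H. Parameters -/

/-- PRL: the moments of the charges. -/
def T_PRL : Prop := ∀ (μ : Measure ℝ) [IsProbabilityMeasure μ],
  (∀ t : ℝ, Integrable (fun z => Real.exp (t * z)) μ) → ∫ z, z ∂μ = 0 → ∫ z, z ^ 2 ∂μ = 1 →
  ∀ α σ d δ : ℝ, 0 < α → α ≤ 1 / 4 → 0 < σ → 2 * σ ≤ d → 0 < δ → δ ≤ 1 / 20 → th α σ < 1 →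
  16 * α ≤ δ ^ 2 → 1 / (1 + α) + d * α ^ 2 < 1 → ∀ᶠ lam in 𝓝[>] (0 : ℝ), ∀ h : ℝ,
  (1 / (1 + α) + d * α ^ 2) * lam ≤ h →
  ∃ b, Env (chargeLaw μ lam h) α σ d δ ⌈δ / 4 / (α * lam ^ 2)⌉₊ b

/-- PRB: the conditions of the base hold for small `α`. -/
def T_PRB : Prop := ∀ σ d δ g0 : ℝ, 0 < σ → σ ≤ 1 → 1 ≤ d - σ → 0 < δ → δ ≤ 1 / 20 →
  (1 + 100 * δ) / (d - σ) + 2 * δ ≤ g0 →
  ∀ᶠ α in 𝓝[>] (0 : ℝ), BPar α σ d δ (n0f α) (Lg α ^ 2) g0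

/-- PRP: the conditions of the steps hold for small `α`. -/
def T_PRP : Prop := ∀ σ δ C : ℝ, 0 < σ → σ ≤ 1 → 0 < δ → δ ≤ 1 → 1 ≤ C →
  ∀ᶠ α in 𝓝[>] (0 : ℝ), Par α σ δ (hf α) (C * Lg α ^ 2) (α ^ (1 / 4 : ℝ)) (Mf α) (Xf α σ)

/-- PRC: the remaining conditions. -/
def T_PRC : Prop := ∀ σ d δ C κ : ℝ, 0 < σ → σ ≤ 1 → 0 < d → 0 < δ → δ ≤ 1 → 1 ≤ C → 0 < κ →
  ∀ᶠ α in 𝓝[>] (0 : ℝ), 1 ≤ Lg α ^ 2 ∧ hf α * Lg α ^ 2 ≤ κ ∧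
    Jf α * α ^ (1 / 4 : ℝ) * Lg α ^ 2 ≤ κ ∧
    4 * (α ^ 2 * (C * Lg α ^ 2) * (1 / ((Mf α ^ Jf α * n0f α : ℕ) : ℝ)) ^ sg α σ *
      (3 + 1 / sg α σ)) ≤ 1 ∧ 16 * α ≤ δ ^ 2 ∧ 1 / (1 + α) + d * α ^ 2 < 1 ∧ α ≤ 1 / 4 ∧
    0 < α ∧ th α σ < 1

/-- UPR: the upper bound. -/
def T_UPR : Prop := ∀ e0 : ℝ, 0 < e0 → ∃ α0 : ℝ, 0 < α0 ∧ ∀ α : ℝ, 0 < α → α < α0 →
  ∀ K : PMF ℕ, K 0 = 0 → ∀ cK : ℝ, 0 < cK →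
  Tendsto (fun n : ℕ => (K n).toReal * (n : ℝ) ^ (1 + α)) atTop (𝓝 cK) →
  ∀ (μ : Measure ℝ) [IsProbabilityMeasure μ],
  (∀ t : ℝ, Integrable (fun z => Real.exp (t * z)) μ) → ∫ z, z ∂μ = 0 → ∫ z, z ^ 2 ∂μ = 1 →
  ∀ᶠ lam in 𝓝[>] (0 : ℝ), criticalCurve K μ lam / lam ≤ 1 / (1 + α) + (2 + e0) * α ^ 2

end Pool.Agent.H99.CE
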