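import Pool.Agent.H99.CE.LOW

set_option autoImplicit false

open MeasureTheory ProbabilityTheory Filter Topology
open scoped ENNReal
open Pool.Agent.H95 Pool.Agent.H95.Cop Pool.Agent.H96.Cop Pool.Agent.H99.CE

namespace Pool.Agent.H99.CE

lemma vin_EE {B L : ℕ} {F : ℕ → (ℕ → ℝ) → ℝ≥0∞} {l : ℕ → ℝ≥0∞} {T : Finset ℕ}
    {C V : ℕ → (ℕ → ℝ) → ℝ≥0∞} (hch : Chn B L F l T C V) (tt : ℝ≥0∞) (b : ℕ) :
    Measurable (EE F tt b) ∧ DepLt ((b + 1) * B) (EE F tt b) ∧ ∀ x, EE F tt b x ≠ ∞ := by
  refine ⟨(low_meas_FL hch tt).2.2 b, ?_, ?_⟩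
  · intro x y hxy
    unfold EE
    by_cases hb : b = 0
    · subst hb
      have h := (hch.mF 0).2.1 x y hxy
      simp only [if_true]
      rw [h]
    · have h := (hch.mF b).2.1 x y hxy
      simp only [hb, if_false]
      rw [h]
  · intro x
    unfold EE
    split_ifs
    · exact ENNReal.zero_ne_top
    · exact (hch.mF 0).2.2 x
    · exact (hch.mF b).2.2 x

lemma vin_ind (hIND : T_IND) (ν : Measure ℝ) [IsProbabilityMeasure ν] {B : ℕ}
    {E : (ℕ → ℝ) → ℝ≥0∞} (hE : Measurable E) (hdE : DepLt B E) (hfin : ∀ x, E x ≠ ∞)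
    {ψ : ℝ≥0∞ → ℝ≥0∞} (hψ : Measurable ψ) {J : ℕ} {V : ℕ → (ℕ → ℝ) → ℝ≥0∞}
    (hV : ∀ j < J, Measurable (V j)) (G : ℝ≥0∞ → ℝ≥0∞)
    (hG : ∀ s, s ≠ ∞ → ∑ j ∈ Finset.range J, ∫⁻ y, ψ (s * V j y) ∂(iid ν) ≤ G s) :
    ∑ j ∈ Finset.range J, ∫⁻ x, ψ (E x * V j (shift B x)) ∂(iid ν) ≤
      ∫⁻ x, G (E x) ∂(iid ν) := by
  have h1 : ∀ j ∈ Finset.range J, ∫⁻ x, ψ (E x * V j (shift B x)) ∂(iid ν) =
      ∫⁻ x, (∫⁻ y, ψ (E x * V j y) ∂(iid ν)) ∂(iid ν) := by
    intro j hj
    exact (hIND ν B E (fun q => ψ (q.1 * V j q.2)) hE hdE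
      (hψ.comp (measurable_fst.mul ((hV j (Finset.mem_range.1 hj)).comp measurable_snd)))).1
  rw [Finset.sum_congr rfl h1, ← lintegral_finsetSum]
  · exact lintegral_mono fun x => hG (E x) (hfin x)
  · intro j hj
    have h2 : Measurable (Function.uncurry fun (x y : ℕ → ℝ) => ψ (E x * V j y)) :=
      hψ.comp ((hE.comp measurable_fst).mul
        ((hV j (Finset.mem_range.1 hj)).comp measurable_snd))
    exact h2.lintegral_prod_right

lemma vin_mx {φ : ℝ≥0∞ → ℝ≥0∞} {u : ℝ≥0∞ → ℝ≥0∞} {θ : ℝ} {e1 : ℝ≥0∞}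
    (hc : ∀ c x, 1 ≤ c → c ≠ ∞ → φ (c * x) ≤ c * φ x) (hθ : 0 < θ)
    (hφ : ∀ x, x ≠ ∞ → φ x ≤ x ^ θ * (u x + e1)) (um : ∀ x y, x ≤ y → y ≠ ∞ → u x ≤ u y)
    (y z : ℝ≥0∞) (hy : y ≠ ∞) (hz : z ≠ ∞) : φ (z * y) ≤ mx θ y * (z ^ θ * (u z + e1)) := by
  rcases le_total y 1 with h | h
  · have hzy : z * y ≤ z := by
      calc z * y ≤ z * 1 := mul_le_mul' le_rfl h
        _ = z := mul_one z
    have h1 : z * y ≠ ∞ := ne_top_of_le_ne_top hz hzy
    calc φ (z * y) ≤ (z * y) ^ θ * (u (z * y) + e1) := hφ _ h1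
      _ ≤ (z * y) ^ θ * (u z + e1) := mul_le_mul' le_rfl (add_le_add (um _ _ hzy hz) le_rfl)
      _ = y ^ θ * (z ^ θ * (u z + e1)) := by
        rw [ENNReal.mul_rpow_of_nonneg _ _ hθ.le]
        ring
      _ ≤ _ := mul_le_mul' (le_max_right _ _) le_rfl
  · calc φ (z * y) = φ (y * z) := by rw [mul_comm]
      _ ≤ y * φ z := hc y z h hy
      _ ≤ y * (z ^ θ * (u z + e1)) := mul_le_mul' le_rfl (hφ z hz)
      _ ≤ _ := mul_le_mul' (le_max_left _ _) le_rfl

lemma vin_sub {q L : ℕ} (T : Finset ℕ) (Kb : ℕ → ℝ≥0∞) :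
    ∑ p ∈ T ∩ Finset.range L, (if q < p then Kb (p - q) else 0) ≤
      ∑ D ∈ Finset.Icc 1 L, if q + D ∈ T then Kb D else 0 := by
  rw [← Finset.sum_filter, ← Finset.sum_filter]
  have h1 : ∑ p ∈ (T ∩ Finset.range L).filter (fun p => q < p), Kb (p - q) =
      ∑ D ∈ ((T ∩ Finset.range L).filter (fun p => q < p)).image (fun p => p - q), Kb D := by
    rw [Finset.sum_image]
    intro a ha b hb hab
    simp only [Finset.coe_filter, Finset.mem_inter, Finset.mem_range, Set.mem_ofPred_eq] at ha hb
    simp only at hab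
    omega
  rw [h1]
  apply Finset.sum_le_sum_of_subset
  intro D hD
  rw [Finset.mem_image] at hD
  obtain ⟨p, hp, rfl⟩ := hD
  simp only [Finset.mem_filter, Finset.mem_inter, Finset.mem_range] at hp
  simp only [Finset.mem_filter, Finset.mem_Icc]
  have e : q + (p - q) = p := by omega
  rw [e]
  exact ⟨by omega, hp.1.1⟩

lemma vin_link {q L : ℕ} (Kb l : ℕ → ℝ≥0∞) (lam : ℝ≥0∞)
    (hsup : ∀ D, 1 ≤ D → l D + lam * ∑ i ∈ Finset.Ico 1 D, Kb i * l (D - i) ≤ Kb D) :
    ∀ p < L, (if q < p then l (p - q) else 0) + lam * ∑ i ∈ Finset.range p,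
      (if q < i then Kb (i - q) else 0) * l (p - i) ≤ (if q < p then Kb (p - q) else 0) := by
  intro p _
  by_cases hp : q < p
  · rw [if_pos hp, if_pos hp]
    refine le_trans (add_le_add le_rfl (mul_le_mul' le_rfl (le_of_eq ?_))) (hsup (p - q) (by omega))
    have h1 : ∀ i ∈ Finset.range p, (if q < i then Kb (i - q) else 0) * l (p - i) =
        if q < i then Kb (i - q) * l (p - i) else 0 := by
      intro i _
      split_ifs
      · rfl
      · rw [zero_mul]
    rw [Finset.sum_congr rfl h1, ← Finset.sum_filter]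
    refine Finset.sum_nbij' (fun i => i - q) (fun i => i + q) ?_ ?_ ?_ ?_ ?_
    · intro i hi
      simp only [Finset.mem_filter, Finset.mem_range] at hi
      rw [Finset.mem_Ico]
      omega
    · intro i hi
      rw [Finset.mem_Ico] at hi
      simp only [Finset.mem_filter, Finset.mem_range]
      omega
    · intro i hi
      simp only [Finset.mem_filter, Finset.mem_range] at hi
      omega
    · intro i hi
      omega
    · intro i hi
      simp only [Finset.mem_filter, Finset.mem_range] at hi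
      have : p - i = p - q - (i - q) := by omega
      rw [this]
  · rw [if_neg hp, if_neg hp, zero_add]
    have h1 : ∑ i ∈ Finset.range p, (if q < i then Kb (i - q) else 0) * l (p - i) = 0 := by
      apply Finset.sum_eq_zero
      intro i hi
      rw [Finset.mem_range] at hi
      rw [if_neg (by omega), zero_mul]
    rw [h1, mul_zero]

/-- the skeleton part of one term -/
lemma vin_sk (hIND : T_IND) {ν : Measure ℝ} [IsProbabilityMeasure ν] {B M J : ℕ}
    {F : ℕ → (ℕ → ℝ) → ℝ≥0∞} {l : ℕ → ℝ≥0∞} {C V : ℕ → ℕ → (ℕ → ℝ) → ℝ≥0∞}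
    {φ : ℝ≥0∞ → ℝ≥0∞} {tt lam : ℝ≥0∞} {Kb : ℕ → ℝ≥0∞} {θ : ℝ} {u : ℝ≥0∞ → ℝ≥0∞}
    {e1 Es mh uh kh v w : ℝ≥0∞} (hφm : Measurable φ)
    (hV : VH ν B M J F l C V φ tt lam Kb θ u e1 Es mh uh kh v w) (hJ0 : 0 < J) {q' b : ℕ}
    (hq' : ∀ z, z ≠ ∞ → ∑ j ∈ Finset.range J, ∫⁻ x, φ (z * V j q' x) ∂(iid ν) ≤
      z ^ θ * (u z * v + w)) {z : ℝ≥0∞} (hz : z ≠ ∞) {D : ℕ} (hD : 1 ≤ D) :
    ∑ j ∈ Finset.range J, ∫⁻ x, φ (z * (Kb D * (EE F tt b x *
      V j q' (shift ((b + 1) * B) x)))) ∂(iid ν) ≤
    z ^ θ * (Kb D ^ θ * ((u z * v + w) * ∫⁻ x, EE F tt b x ^ θ ∂(iid ν) +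
      v * ∫⁻ x, EE F tt b x ^ θ * u (EE F tt b x) ∂(iid ν))) := by
  obtain ⟨hm, hd, hf⟩ := vin_EE (hV.ch 0 hJ0) tt b
  have h1 := vin_ind hIND ν hm hd hf (ψ := fun s => φ (z * (Kb D * s)))
    (hφm.comp (measurable_const.mul (measurable_const.mul measurable_id)))
    (J := J) (V := fun j => V j q') (fun j hj => (hV.ch j hj).mV q')
    (fun s => z ^ θ * (Kb D ^ θ * (s ^ θ * ((u z + u s) * v + w)))) (by
      intro s hs
      have h2 : ∀ j ∈ Finset.range J, ∫⁻ y, φ (z * (Kb D * (s * V j q' y))) ∂(iid ν) =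
          ∫⁻ y, φ (z * (Kb D * s) * V j q' y) ∂(iid ν) := by
        intro j _
        apply lintegral_congr
        intro y
        congr 1
        ring
      rw [Finset.sum_congr rfl h2]
      refine (hq' (z * (Kb D * s)) (ENNReal.mul_ne_top hz (ENNReal.mul_ne_top (hV.Kf D) hs))).trans
        ?_
      rw [ENNReal.mul_rpow_of_nonneg _ _ hV.θ0.le, ENNReal.mul_rpow_of_nonneg _ _ hV.θ0.le]
      calc z ^ θ * (Kb D ^ θ * s ^ θ) * (u (z * (Kb D * s)) * v + w)
          ≤ z ^ θ * (Kb D ^ θ * s ^ θ) * ((u z + u s) * v + w) :=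
            mul_le_mul' le_rfl (add_le_add (mul_le_mul' (hV.hu D hD z s hz hs) le_rfl) le_rfl)
        _ = _ := by ring)
  refine h1.trans (le_of_eq ?_)
  have hmθ : Measurable fun x => EE F tt b x ^ θ := hm.pow_const θ
  have hmu : Measurable fun x => EE F tt b x ^ θ * u (EE F tt b x) := hmθ.mul (hV.mu.comp hm)
  have h3 : ∀ x, z ^ θ * (Kb D ^ θ * (EE F tt b x ^ θ * ((u z + u (EE F tt b x)) * v + w))) =
      z ^ θ * (Kb D ^ θ * ((u z * v + w) * EE F tt b x ^ θ +
        v * (EE F tt b x ^ θ * u (EE F tt b x)))) := by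
    intro x
    ring
  simp only [h3]
  have hm1 : Measurable fun x => (u z * v + w) * EE F tt b x ^ θ := hmθ.const_mul _
  have hm2 : Measurable fun x => v * (EE F tt b x ^ θ * u (EE F tt b x)) := hmu.const_mul _
  have hm3 : Measurable fun x => (u z * v + w) * EE F tt b x ^ θ +
      v * (EE F tt b x ^ θ * u (EE F tt b x)) := hm1.add hm2
  have hm4 : Measurable fun x => Kb D ^ θ * ((u z * v + w) * EE F tt b x ^ θ +
      v * (EE F tt b x ^ θ * u (EE F tt b x))) := hm3.const_mul _
  rw [lintegral_const_mul _ hm4, lintegral_const_mul _ hm3,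
    lintegral_add_left hm1, lintegral_const_mul _ hmθ, lintegral_const_mul _ hmu]

theorem pf_VIN (hCCP : T_CCP) (hIND : T_IND) (hLOW : T_LOW) : T_VIN := by
  intro ν _ B M J F l C V φ tt lam Kb θ u e1 Es mh uh kh v w hV
  obtain ⟨hmono, hmeas, hsub, hc, hz', hJen⟩ := hCCP φ hV.cc
  rcases Nat.eq_zero_or_pos J with hJ0 | hJ0
  · intro q hq
    rw [hJ0, zero_mul] at hq
    omega
  have hmain : ∀ n : ℕ, ∀ q < J * M, J * M - q ≤ n → ∀ z, z ≠ ∞ →
      ∑ j ∈ Finset.range J, ∫⁻ x, φ (z * V j q x) ∂(iid ν) ≤ z ^ θ * (u z * v + w) := by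
    intro n
    induction n with
    | zero => intro q hq h; omega
    | succ n ih =>
      intro q hq hn z hz
      -- one `j`
      have h1 : ∀ j ∈ Finset.range J, ∫⁻ x, φ (z * V j q x) ∂(iid ν) ≤
          φ (z * eb lam Kb (TT M j) (J * M) q) + ∑ p ∈ Finset.range (J * M),
            ∑ b ∈ Finset.range (J * M - p), if q < p then ∫⁻ x, φ (z * (Kb (p - q) *
              (EE F tt b x * V j (p + b) (shift ((b + 1) * B) x)))) ∂(iid ν) else 0 := by
        intro j hj
        rw [Finset.mem_range] at hj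
        have hch := hV.ch j hj
        have hLz := hLOW ν B (J * M) F l (TT M j) (C j) (V j) hch (fun x => φ (z * x)) (hz' z hz)
          tt lam hV.hl (fun p => if q < p then l (p - q) else 0)
          (fun p => if q < p then Kb (p - q) else 0) (if q ∈ TT M j then 1 else 0)
          (eb lam Kb (TT M j) (J * M) q) (vin_link Kb l lam hV.sup)
          (add_le_add le_rfl (mul_le_mul' le_rfl (vin_sub (TT M j) Kb)))
        have h2 : ∫⁻ x, φ (z * V j q x) ∂(iid ν) =
            ∫⁻ x, φ (z * V j q (shift ((q + 1) * B) x)) ∂(iid ν) :=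
          ((measurePreserving_shift ν ((q + 1) * B)).lintegral_comp
            (hmeas.comp (measurable_const.mul (hch.mV q)))).symm
        rw [h2]
        refine le_trans (lintegral_mono fun x => hmono (mul_le_mul' le_rfl ?_))
          (hLz.trans (add_le_add le_rfl (Finset.sum_le_sum fun p _ =>
            Finset.sum_le_sum fun b _ => ?_)))
        · refine (hch.recV q hq _).trans (add_le_add le_rfl (le_of_eq ?_))
          have h3 : ∀ i ∈ Finset.range (J * M), (if q < i then l (i - q) else 0) *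
              C j i (shift (i * B) x) = if q < i then l (i - q) * C j i (shift (i * B) x) else 0 := by
            intro i _
            split_ifs
            · rfl
            · rw [zero_mul]
          rw [Finset.sum_congr rfl h3, ← Finset.sum_filter]
          refine Finset.sum_nbij' (fun D => q + D) (fun i => i - q) ?_ ?_ ?_ ?_ ?_
          · intro D hD
            rw [Finset.mem_Icc] at hD
            simp only [Finset.mem_filter, Finset.mem_range]
            omega
          · intro i hi
            simp only [Finset.mem_filter, Finset.mem_range] at hi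
            rw [Finset.mem_Icc]
            omega
          · intro D _
            omega
          · intro i hi
            simp only [Finset.mem_filter, Finset.mem_range] at hi
            omega
          · intro D hD
            rw [Finset.mem_Icc] at hD
            have h4 : q + D - q = D := by omega
            have h5 : (D - 1) * B + (q + 1) * B = (q + D) * B := by
              rw [← add_mul]
              congr 1
              omega
            rw [h4, shift_shift, h5]
        · split_ifs with hqp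
          · exact le_rfl
          · simp only [zero_mul, mul_zero, hV.cc.1, lintegral_const, le_refl]
      refine (Finset.sum_le_sum h1).trans ?_
      rw [Finset.sum_add_distrib]
      -- the end
      have hebf : ∀ j, eb lam Kb (TT M j) (J * M) q ≠ ∞ := by
        intro j
        unfold eb
        refine ENNReal.add_ne_top.2 ⟨?_, ENNReal.mul_ne_top hV.lf (ENNReal.sum_ne_top.2 ?_)⟩
        · split_ifs
          · exact ENNReal.one_ne_top
          · exact ENNReal.zero_ne_top
        · intro D _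
          split_ifs
          · exact hV.Kf D
          · exact ENNReal.zero_ne_top
      have h6 : ∑ j ∈ Finset.range J, φ (z * eb lam Kb (TT M j) (J * M) q) ≤
          Es * (z ^ θ * (u z + e1)) := by
        refine (Finset.sum_le_sum fun j _ => vin_mx hc hV.θ0 hV.hφ hV.um
          (eb lam Kb (TT M j) (J * M) q) z (hebf j) hz).trans ?_
        rw [← Finset.sum_mul]
        exact mul_le_mul' (hV.hE q) le_rfl
      -- the skeleton
      have h7 : ∑ j ∈ Finset.range J, ∑ p ∈ Finset.range (J * M),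
            ∑ b ∈ Finset.range (J * M - p), (if q < p then ∫⁻ x, φ (z * (Kb (p - q) *
              (EE F tt b x * V j (p + b) (shift ((b + 1) * B) x)))) ∂(iid ν) else 0) ≤
          z ^ θ * (kh * ((u z * v + w) * mh + v * uh)) := by
        rw [Finset.sum_comm]
        have h8 : ∀ p ∈ Finset.range (J * M), ∑ j ∈ Finset.range J,
            ∑ b ∈ Finset.range (J * M - p), (if q < p then ∫⁻ x, φ (z * (Kb (p - q) *
              (EE F tt b x * V j (p + b) (shift ((b + 1) * B) x)))) ∂(iid ν) else 0) ≤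
            if q < p then z ^ θ * (Kb (p - q) ^ θ * ((u z * v + w) * mh + v * uh)) else 0 := by
          intro p hp
          rw [Finset.mem_range] at hp
          by_cases hqp : q < p
          · simp only [hqp, if_true]
            rw [Finset.sum_comm]
            have h9 : ∀ b ∈ Finset.range (J * M - p), ∑ j ∈ Finset.range J, ∫⁻ x, φ (z *
                (Kb (p - q) * (EE F tt b x * V j (p + b) (shift ((b + 1) * B) x)))) ∂(iid ν) ≤
                z ^ θ * (Kb (p - q) ^ θ * ((u z * v + w) * ∫⁻ x, EE F tt b x ^ θ ∂(iid ν) +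
                  v * ∫⁻ x, EE F tt b x ^ θ * u (EE F tt b x) ∂(iid ν))) := by
              intro b hb
              rw [Finset.mem_range] at hb
              exact vin_sk hIND hmeas hV hJ0 (fun z hz => ih (p + b) (by omega) (by omega) z hz) hz
                (by omega)
            refine (Finset.sum_le_sum h9).trans ?_
            rw [← Finset.mul_sum, ← Finset.mul_sum, Finset.sum_add_distrib, ← Finset.mul_sum,
              ← Finset.mul_sum]
            have h10 : Finset.range (J * M - p) ⊆ Finset.range (J * M) :=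
              Finset.range_subset_range.2 (Nat.sub_le _ _)
            refine mul_le_mul' le_rfl (mul_le_mul' le_rfl (add_le_add (mul_le_mul' le_rfl ?_)
              (mul_le_mul' le_rfl ?_)))
            · exact (Finset.sum_le_sum_of_subset h10).trans hV.hm
            · exact (Finset.sum_le_sum_of_subset h10).trans hV.hh
          · simp only [hqp, if_false, Finset.sum_const_zero, le_refl]
        refine (Finset.sum_le_sum h8).trans ?_
        have h11 : ∀ p ∈ Finset.range (J * M),
            (if q < p then z ^ θ * (Kb (p - q) ^ θ * ((u z * v + w) * mh + v * uh)) else 0) =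
            (if q < p then Kb (p - q) ^ θ else 0) * (z ^ θ * ((u z * v + w) * mh + v * uh)) := by
          intro p _
          split_ifs
          · ring
          · rw [zero_mul]
        rw [Finset.sum_congr rfl h11, ← Finset.sum_mul]
        have h12 : ∑ p ∈ Finset.range (J * M), (if q < p then Kb (p - q) ^ θ else 0) ≤ kh := by
          have h13 := vin_sub (q := q) (L := J * M) (Finset.range (J * M)) (fun D => Kb D ^ θ)
          rw [Finset.inter_self] at h13
          refine h13.trans (le_trans (Finset.sum_le_sum fun D _ => ?_) hV.hk)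
          split_ifs
          · exact le_rfl
          · exact zero_le
        refine (mul_le_mul' h12 le_rfl).trans (le_of_eq ?_)
        ring
      refine (add_le_add h6 h7).trans ?_
      calc Es * (z ^ θ * (u z + e1)) + z ^ θ * (kh * ((u z * v + w) * mh + v * uh))
          = z ^ θ * (u z * (Es + kh * mh * v) + (e1 * Es + kh * mh * w + kh * uh * v)) := by ring
        _ ≤ z ^ θ * (u z * v + w) :=
            mul_le_mul' le_rfl (add_le_add (mul_le_mul' le_rfl hV.hv) hV.hw)
  intro q hq z hz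
  exact hmain (J * M - q) q hq le_rfl z hz

end Pool.Agent.H99.CE
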