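import Pool.Agent.H99.CE.Targets

set_option autoImplicit false

open MeasureTheory ProbabilityTheory Filter Topology
open scoped ENNReal
open Pool.Agent.H95 Pool.Agent.H95.Cop Pool.Agent.H96.Cop Pool.Agent.H99.CE

namespace Pool.Agent.H99.CE

lemma low_sub_sum {φ : ℝ≥0∞ → ℝ≥0∞} (h0 : φ 0 = 0) (hs : ∀ x y, φ (x + y) ≤ φ x + φ y)
    {ι : Type*} (s : Finset ι) (f : ι → ℝ≥0∞) : φ (∑ i ∈ s, f i) ≤ ∑ i ∈ s, φ (f i) := by
  classical
  induction s using Finset.induction_on with
  | empty => simp [h0]
  | insert i s hi ih =>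
    rw [Finset.sum_insert hi, Finset.sum_insert hi]
    exact (hs _ _).trans (add_le_add le_rfl ih)

lemma low_meas_FL {B L : ℕ} {F : ℕ → (ℕ → ℝ) → ℝ≥0∞} {l : ℕ → ℝ≥0∞} {T : Finset ℕ}
    {C V : ℕ → (ℕ → ℝ) → ℝ≥0∞} (hch : Chn B L F l T C V) (tt : ℝ≥0∞) :
    Measurable (FL F tt) ∧ DepLt B (FL F tt) ∧ ∀ b, Measurable (EE F tt b) := by
  refine ⟨?_, ?_, ?_⟩
  · unfold FL
    exact Measurable.ite (measurableSet_le (hch.mF 0).1 measurable_const) (hch.mF 0).1
      measurable_const
  · intro x y hxy
    have h := (hch.mF 0).2.1 x y (by simpa using hxy)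
    unfold FL
    rw [h]
  · intro b
    unfold EE
    by_cases hb : b = 0
    · simp only [hb, if_true]
      exact Measurable.ite (measurableSet_le (hch.mF 0).1 measurable_const) measurable_const
        (hch.mF 0).1
    · simp only [hb, if_false]
      exact (hch.mF b).1

lemma low_step (hIND : T_IND) (ν : Measure ℝ) [IsProbabilityMeasure ν] {B L : ℕ}
    {F : ℕ → (ℕ → ℝ) → ℝ≥0∞} {l : ℕ → ℝ≥0∞} {T : Finset ℕ} {C V : ℕ → (ℕ → ℝ) → ℝ≥0∞}
    (hch : Chn B L F l T C V) {φ : ℝ≥0∞ → ℝ≥0∞} (h0 : φ 0 = 0) (hmono : Monotone φ)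
    (hmeas : Measurable φ) (hsub : ∀ x y, φ (x + y) ≤ φ x + φ y)
    (hJ : ∀ (f : (ℕ → ℝ) → ℝ≥0∞), Measurable f →
      ∀ A B : ℝ≥0∞, ∫⁻ x, φ (A + B * f x) ∂(iid ν) ≤ φ (A + B * ∫⁻ x, f x ∂(iid ν)))
    {tt lam : ℝ≥0∞} (hlam : ∫⁻ x, FL F tt x ∂(iid ν) ≤ lam) {p : ℕ} (hp : p < L) (c a' : ℝ≥0∞)
    (A : ℕ → ℝ≥0∞) (hA : A p ≤ a') :
    ∫⁻ y, φ (c + ∑ i ∈ Finset.Ico p L, A i * C i (shift ((i - p) * B) y)) ∂(iid ν) ≤
      (∑ b ∈ Finset.range (L - p), ∫⁻ y, φ (a' * (EE F tt b y *
        V (p + b) (shift ((b + 1) * B) y))) ∂(iid ν)) +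
      ∫⁻ y, φ (c + lam * (if p ∈ T then a' else 0) + ∑ i ∈ Finset.Ico (p + 1) L,
        (A i + lam * (a' * l (i - p))) * C i (shift ((i - (p + 1)) * B) y)) ∂(iid ν) := by
  obtain ⟨hmFL, hdFL, hmEE⟩ := low_meas_FL hch tt
  let W : (ℕ → ℝ) → ℝ≥0∞ := fun y =>
    c + ∑ i ∈ Finset.Ico (p + 1) L, A i * C i (shift ((i - (p + 1)) * B) y)
  have hW : Measurable W := by
    refine measurable_const.add (Finset.measurable_fun_sum _ fun i _ => ?_)
    exact measurable_const.mul ((hch.mC i).comp (measurable_shift _))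
  -- pointwise
  have hpt : ∀ y, φ (c + ∑ i ∈ Finset.Ico p L, A i * C i (shift ((i - p) * B) y)) ≤
      (∑ b ∈ Finset.range (L - p), φ (a' * (EE F tt b y *
        V (p + b) (shift ((b + 1) * B) y)))) +
      φ (W (shift B y) + a' * V p (shift B y) * FL F tt y) := by
    intro y
    have e1 : ∑ i ∈ Finset.Ico p L, A i * C i (shift ((i - p) * B) y) =
        A p * C p y + ∑ i ∈ Finset.Ico (p + 1) L, A i *
          C i (shift ((i - (p + 1)) * B) (shift B y)) := by
      rw [Finset.sum_eq_sum_Ico_succ_bot hp]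
      congr 1
      · rw [Nat.sub_self, zero_mul, shift_zero]
      · apply Finset.sum_congr rfl
        intro i hi
        rw [Finset.mem_Ico] at hi
        rw [shift_shift]
        have : (i - (p + 1)) * B + B = (i - p) * B := by
          have h2 : i - p = (i - (p + 1)) + 1 := by omega
          rw [h2, add_mul, one_mul]
        rw [this]
    have e2 : C p y ≤ V p (shift B y) * FL F tt y + ∑ b ∈ Finset.range (L - p), EE F tt b y *
        V (p + b) (shift ((b + 1) * B) y) := by
      refine (hch.recC p hp y).trans ?_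
      have h3 : V p (shift B y) * FL F tt y = ∑ b ∈ Finset.range (L - p),
          if b = 0 then FL F tt y * V (p + b) (shift ((b + 1) * B) y) else 0 := by
        rw [Finset.sum_ite_eq', if_pos (Finset.mem_range.2 (by omega))]
        rw [add_zero, zero_add, one_mul, mul_comm]
      rw [h3, ← Finset.sum_add_distrib]
      apply Finset.sum_le_sum
      intro b _
      by_cases hb : b = 0
      · rw [if_pos hb, ← add_mul]
        refine mul_le_mul' ?_ le_rfl
        subst hb
        unfold FL EE
        simp only [if_true]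
        split_ifs
        · simp
        · simp
      · rw [if_neg hb, zero_add]
        unfold EE
        rw [if_neg hb]
    have e3 : c + ∑ i ∈ Finset.Ico p L, A i * C i (shift ((i - p) * B) y) ≤
        (∑ b ∈ Finset.range (L - p), a' * (EE F tt b y * V (p + b) (shift ((b + 1) * B) y))) +
          (W (shift B y) + a' * V p (shift B y) * FL F tt y) := by
      rw [e1]
      have h4 : A p * C p y ≤ a' * V p (shift B y) * FL F tt y +
          ∑ b ∈ Finset.range (L - p), a' * (EE F tt b y * V (p + b) (shift ((b + 1) * B) y)) := by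
        refine (mul_le_mul' hA e2).trans ?_
        rw [mul_add, Finset.mul_sum, mul_assoc]
      refine (add_le_add le_rfl (add_le_add h4 le_rfl)).trans (le_of_eq ?_)
      simp only [W]
      ring
    refine (hmono e3).trans ((hsub _ _).trans (add_le_add ?_ le_rfl))
    exact low_sub_sum h0 hsub _ _
  refine (lintegral_mono hpt).trans ?_
  have hmb : ∀ b : ℕ, Measurable fun y : ℕ → ℝ =>
      φ (a' * (EE F tt b y * V (p + b) (shift ((b + 1) * B) y))) := fun b => hmeas.comp
    (measurable_const.mul ((hmEE b).mul ((hch.mV _).comp (measurable_shift _))))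
  rw [lintegral_add_left (Finset.measurable_fun_sum _ fun b _ => hmb b),
    lintegral_finsetSum _ fun b _ => hmb b]
  refine add_le_add le_rfl ?_
  have h5 := (hIND ν B (FL F tt) (fun q => φ (W q.2 + a' * V p q.2 * q.1)) hmFL hdFL
    (hmeas.comp ((hW.comp measurable_snd).add ((measurable_const.mul
      ((hch.mV p).comp measurable_snd)).mul measurable_fst)))).2
  simp only at h5
  rw [h5]
  apply lintegral_mono
  intro y
  refine (hJ (FL F tt) hmFL (W y) (a' * V p y)).trans (hmono ?_)
  have h6 : V p y ≤ (if p ∈ T then 1 else 0) + ∑ i ∈ Finset.Ico (p + 1) L,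
      l (i - p) * C i (shift ((i - (p + 1)) * B) y) := by
    refine (hch.recV p hp y).trans (add_le_add le_rfl (le_of_eq ?_))
    refine Finset.sum_nbij' (fun D => p + D) (fun i => i - p) ?_ ?_ ?_ ?_ ?_
    · intro D hD
      rw [Finset.mem_Icc] at hD
      rw [Finset.mem_Ico]
      omega
    · intro i hi
      rw [Finset.mem_Ico] at hi
      rw [Finset.mem_Icc]
      omega
    · intro D hD
      omega
    · intro i hi
      rw [Finset.mem_Ico] at hi
      omega
    · intro D hD
      rw [Finset.mem_Icc] at hD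
      have h7 : p + D - p = D := by omega
      have h8 : p + D - (p + 1) = D - 1 := by omega
      rw [h7, h8]
  calc W y + a' * V p y * ∫⁻ x, FL F tt x ∂(iid ν)
      ≤ W y + a' * ((if p ∈ T then 1 else 0) + ∑ i ∈ Finset.Ico (p + 1) L,
        l (i - p) * C i (shift ((i - (p + 1)) * B) y)) * lam :=
        add_le_add le_rfl (mul_le_mul' (mul_le_mul' le_rfl h6) hlam)
    _ = _ := by
        simp only [W, add_mul, Finset.sum_add_distrib, mul_add, Finset.mul_sum, Finset.sum_mul]
        have h9 : a' * (if p ∈ T then (1 : ℝ≥0∞) else 0) * lam =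
            lam * (if p ∈ T then a' else 0) := by
          split_ifs
          · ring
          · simp
        rw [h9]
        have h10 : ∑ i ∈ Finset.Ico (p + 1) L,
            a' * (l (i - p) * C i (shift ((i - (p + 1)) * B) y)) * lam =
            ∑ i ∈ Finset.Ico (p + 1) L,
              lam * (a' * l (i - p)) * C i (shift ((i - (p + 1)) * B) y) := by
          apply Finset.sum_congr rfl
          intro i _
          ring
        rw [h10]
        ring

theorem pf_LOW (hCCP : T_CCP) (hIND : T_IND) : T_LOW := by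
  intro ν _ B L F l T C V hch φ hφ tt lam hlam a a' c cb ha hcb
  obtain ⟨hmono, hmeas, hsub, -, -, hJ⟩ := hCCP φ hφ
  have h0 : φ 0 = 0 := hφ.1
  let A : ℕ → ℕ → ℝ≥0∞ := fun p i => a i + lam * ∑ j ∈ Finset.range p, a' j * l (i - j)
  let cp : ℕ → ℝ≥0∞ := fun p => c + lam * ∑ j ∈ Finset.range p, (if j ∈ T then a' j else 0)
  have hmain : ∀ p ≤ L,
      ∫⁻ x, φ (c + ∑ i ∈ Finset.range L, a i * C i (shift (i * B) x)) ∂(iid ν) ≤
      (∑ q ∈ Finset.range p, ∑ b ∈ Finset.range (L - q),
        ∫⁻ x, φ (a' q * (EE F tt b x * V (q + b) (shift ((b + 1) * B) x))) ∂(iid ν)) +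
      ∫⁻ y, φ (cp p + ∑ i ∈ Finset.Ico p L, A p i * C i (shift ((i - p) * B) y)) ∂(iid ν) := by
    intro p
    induction p with
    | zero =>
      intro _
      simp only [Finset.range_zero, Finset.sum_empty, zero_add, A, cp, mul_zero, add_zero,
        Nat.sub_zero]
      rw [← Finset.range_eq_Ico]
    | succ p ih =>
      intro hp
      refine (ih (by omega)).trans ?_
      rw [Finset.sum_range_succ, add_assoc]
      refine add_le_add le_rfl ?_
      have hs := low_step hIND ν hch h0 hmono hmeas hsub (fun f hf => hJ (iid ν) f hf) hlam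
        (p := p) (by omega) (cp p) (a' p) (A p) (ha p (by omega))
      refine hs.trans (add_le_add le_rfl (le_of_eq ?_))
      apply lintegral_congr
      intro y
      congr 1
      have e1 : cp p + lam * (if p ∈ T then a' p else 0) = cp (p + 1) := by
        simp only [cp]
        rw [Finset.sum_range_succ, mul_add, add_assoc]
      rw [e1]
      congr 1
      apply Finset.sum_congr rfl
      intro i _
      congr 1
      simp only [A]
      rw [Finset.sum_range_succ, mul_add, add_assoc]
  refine (hmain L le_rfl).trans ?_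
  rw [add_comm]
  refine add_le_add ?_ le_rfl
  simp only [Finset.Ico_self, Finset.sum_empty, add_zero, lintegral_const, measure_univ, mul_one]
  apply hmono
  refine le_trans ?_ hcb
  simp only [cp]
  rw [Finset.sum_ite_mem, Finset.inter_comm]

end Pool.Agent.H99.CE
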