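import Pool.Agent.H99.CE.ST0

set_option autoImplicit false

open MeasureTheory ProbabilityTheory Filter Topology
open scoped ENNReal
open Pool.Agent.H95 Pool.Agent.H95.Cop Pool.Agent.H96.Cop Pool.Agent.H99.CE

namespace Pool.Agent.H99.CE

lemma st_lg_mono {t : ℝ} (ht : 0 < t) {x y : ℝ≥0∞} (hxy : x ≤ y) (hy : y ≠ ∞) :
    lg t x ≤ lg t y := by
  unfold lg
  have hxt : x.toReal ≤ y.toReal := ENNReal.toReal_mono hy hxy
  rcases eq_or_lt_of_le (ENNReal.toReal_nonneg (a := x)) with h | h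
  · rw [← h]
    simp
  · apply ENNReal.ofReal_le_ofReal
    apply Real.log_le_log
    · positivity
    · gcongr

lemma st_lg_mul {t : ℝ} (ht : 0 < t) {κ z y : ℝ≥0∞} (hκ : κ.toReal ≤ 1 / t) :
    lg t (z * (κ * y)) ≤ lg t z + lg t y := by
  unfold lg
  rw [ENNReal.toReal_mul, ENNReal.toReal_mul]
  rcases eq_or_lt_of_le (ENNReal.toReal_nonneg (a := z)) with hz | hz
  · rw [← hz]
    simp
  rcases eq_or_lt_of_le (ENNReal.toReal_nonneg (a := y)) with hy | hy
  · rw [← hy]
    simp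
  rcases eq_or_lt_of_le (ENNReal.toReal_nonneg (a := κ)) with hk | hk
  · rw [← hk]
    simp
  refine (ENNReal.ofReal_le_ofReal ?_).trans ENNReal.ofReal_add_le
  rw [← Real.log_mul (by positivity) (by positivity)]
  apply Real.log_le_log
  · positivity
  · calc z.toReal * (κ.toReal * y.toReal) / t ≤ z.toReal * (1 / t * y.toReal) / t := by gcongr
      _ = z.toReal / t * (y.toReal / t) := by ring

theorem pf_ST2 (hPFM : T_PFM) (hINS : T_INS) (hCCP : T_CCP) (hCCT : T_CCT) (hHFT : T_HFT)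
    (hPHI : T_PHI) (hASP : T_ASP) (hLNK : T_LNK) (hSUP : T_SUP) (hKHT : T_KHT) (hSHT : T_SHT)
    (hEST : T_EST) (hCBT : T_CBT) (hNAT : T_NAT) (hSTL : T_STL) (hSTM : T_STM) : T_ST2 := by
  intro K ν _ α σ c δ h P ε X M n0 k B hPar hc hR hk hkB hn0 hX hQT p g p0 p1 g0 hQN hQG
  obtain ⟨q0, q1, hh8, et0, et1, etd, a2P, a22P, θ0, θ1⟩ := st_real hPar p0 p1
  obtain ⟨hna, ht, hnM, htM, hn, hsθ, hs, hnt⟩ :=
    hNAT α σ c δ k B M hPar.α0 hPar.σ0 hc hPar.δ0 hk hkB hPar.M1
  have hα := hPar.α0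
  have hε := hPar.ε0
  have hP0 : 0 ≤ P := by linarith [hPar.P1]
  have hM1 : (1 : ℝ) ≤ M := by exact_mod_cast hPar.M1
  have hM0 : (0 : ℝ) < M := by linarith
  have hlogM : 0 ≤ Real.log M := Real.log_nonneg hM1
  have hh0 := hPar.h0
  have hq1 : 0 < 1 - (1 + ε) * h * p := by linarith
  have htM' : tb α c δ (M * B) / tb α c δ B = (M : ℝ) ^ (1 + α) := by
    rw [htM]
    field_simp
  have ht' : 0 < tb α c δ (M * B) := by
    rw [htM]
    positivity
  have htt : tb α c δ B ≤ tb α c δ (M * B) := by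
    rw [htM]
    exact le_mul_of_one_le_left ht.le (Real.one_le_rpow hM1 (by linarith))
  have hW : α ^ 2 * Real.log (tb α c δ (M * B) / tb α c δ B) = α ^ 2 * ((1 + α) * Real.log M) := by
    rw [htM', Real.log_rpow hM0]
  have hhW : h ≤ α ^ 2 * Real.log (tb α c δ (M * B) / tb α c δ B) := by
    rw [hW]
    have h1 := hPar.hM
    rw [div_le_iff₀ (by positivity)] at h1
    have h2 : 0 ≤ α ^ 3 * Real.log M := by positivity
    have h3 : α ^ 2 * ((1 + α) * Real.log M) = Real.log M * α ^ 2 + α ^ 3 * Real.log M := by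
      ring
    linarith
  set t := tb α c δ B with htd
  set t' := tb α c δ (M * B) with htd'
  set θ := th α σ with hθd
  set W := α ^ 2 * Real.log (t' / t) with hWd
  set er := 2 * α ^ 2 / (1 - θ) with herd
  have hθα : α / 2 ≤ 1 - θ := by linarith [hPar.t1]
  have her0 : 0 ≤ er := by positivity
  have her1 : er ≤ 4 * α := by
    rw [herd, div_le_iff₀ (by linarith)]
    have h1 := mul_le_mul_of_nonneg_left hθα (show 0 ≤ 4 * α by positivity)
    have h2 : 4 * α * (α / 2) = 2 * α ^ 2 := by ring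
    linarith
  have h64 : 64 * α ≤ 1 := by
    have h8 : 64 * α ≤ 64 * α * P := le_mul_of_one_le_right (by positivity) hPar.P1
    linarith [hPar.c6, hPar.ε1]
  have hCG := (hCCT.2.1 t' θ ht' θ0 θ1).2
  have hCH := (hCCT.2.1 t' θ ht' θ0 θ1).1
  have hcc : Cc (fun x => ENNReal.ofReal (α ^ 2) * Gf t' θ x + ENNReal.ofReal W * Hf t' θ x) :=
    hCCT.2.2 (Gf t' θ) (Hf t' θ) hCG hCH _ _ ENNReal.ofReal_ne_top ENNReal.ofReal_ne_top
  have hmono := (hCCP _ hcc).1
  have hmG := (hCCP _ hCG).2.1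
  have hmH := (hCCP _ hCH).2.1
  have hφ : ∀ x, x ≠ ∞ → ENNReal.ofReal (α ^ 2) * Gf t' θ x + ENNReal.ofReal W * Hf t' θ x ≤
      x ^ θ * (ENNReal.ofReal (α ^ 2) * lg t x + ENNReal.ofReal er) := fun x hx =>
    hPHI t t' θ (α ^ 2) x ht htt θ0 θ1 (sq_nonneg α) hx
  have hmu : Measurable fun x => ENNReal.ofReal (α ^ 2) * lg t x := by
    unfold lg
    exact measurable_const.mul (ENNReal.measurable_ofReal.comp
      (Real.measurable_log.comp (ENNReal.measurable_toReal.div_const t)))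
  have hcore := fun J => st_core hINS hASP hLNK hSUP hKHT hSHT hEST hNAT hSTL hSTM K ν hPar hc hR
    hk hkB hn0 hQT p0 p1 (g := g) (er := er) g0 her0 hQN
    (φ := fun x => ENNReal.ofReal (α ^ 2) * Gf t' θ x + ENNReal.ofReal W * Hf t' θ x)
    (u := fun x => ENNReal.ofReal (α ^ 2) * lg t x) hcc hmono hmu hφ
    (fun x y hxy hy => mul_le_mul' le_rfl (st_lg_mono ht hxy hy))
    (fun D _ z y _ _ => by
      rw [← mul_add]
      exact mul_le_mul' le_rfl (st_lg_mul ht (st_Kd hα ht et0 et1 M D)))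
    (fun n => by
      refine ((hSTM K ν α σ c δ k B hα hPar.σ0 θ1 hc hPar.δ0 hk hkB n).2).trans ?_
      rw [ENNReal.ofReal_mul hna.le]
      exact mul_le_mul' le_rfl hQG) J
  -- the low boxes
  have hcb : ∀ J, ∑ j ∈ Finset.range J, (fun x => ENNReal.ofReal (α ^ 2) * Gf t' θ x +
      ENNReal.ofReal W * Hf t' θ x) (ENNReal.ofReal (α ^ 2 * P * t) * ∑ p ∈ TT M j,
        ab (ENNReal.ofReal (α ^ 2 * P * t)) (Kd α t (36 * α * P) M) M p) ≤
      ENNReal.ofReal (ε * (M * na α σ c δ k B)) := by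
    intro J
    have hcb0 := hCBT α t θ (sg α σ) (36 * α * P) P M J hα
      (by linarith [hPar.α1]) ht θ0 θ1 hsθ hs et0 et1 hP0 a2P hPar.M1
    have h1 : ∀ j ∈ Finset.range J, (fun x => ENNReal.ofReal (α ^ 2) * Gf t' θ x +
        ENNReal.ofReal W * Hf t' θ x) (ENNReal.ofReal (α ^ 2 * P * t) * ∑ p ∈ TT M j,
          ab (ENNReal.ofReal (α ^ 2 * P * t)) (Kd α t (36 * α * P) M) M p) ≤
        2 * (ENNReal.ofReal (α ^ 2 * P * t) * ∑ p ∈ TT M j,
          ab (ENNReal.ofReal (α ^ 2 * P * t)) (Kd α t (36 * α * P) M) M p) ^ θ := by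
      intro j _
      have h2 := hcb0.2 j
      set y := ENNReal.ofReal (α ^ 2 * P * t) * ∑ p ∈ TT M j,
          ab (ENNReal.ofReal (α ^ 2 * P * t)) (Kd α t (36 * α * P) M) M p with hy
      have hyt : y ≠ ∞ := ne_top_of_le_ne_top ENNReal.ofReal_ne_top h2
      refine (hφ y hyt).trans ?_
      rw [mul_comm]
      refine mul_le_mul' ?_ le_rfl
      unfold lg
      rw [← ENNReal.ofReal_mul (by positivity)]
      have h3 : α ^ 2 * Real.log (y.toReal / t) ≤ 1 := by
        have h4 : Real.log (y.toReal / t) ≤ Real.log M := by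
          rcases eq_or_lt_of_le (ENNReal.toReal_nonneg (a := y)) with h | h
          · rw [← h]
            simpa using hlogM
          · apply Real.log_le_log (by positivity)
            rw [div_le_iff₀ ht]
            have h5 : y.toReal ≤ 2 * (α ^ 2 * P * t * M) := by
              have := ENNReal.toReal_mono ENNReal.ofReal_ne_top h2
              rwa [ENNReal.toReal_ofReal (by positivity)] at this
            have h6 : 2 * (α ^ 2 * P * t * M) = (2 * α ^ 2 * P) * (M * t) := by ring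
            rw [h6] at h5
            have h7 : (2 * α ^ 2 * P) * (M * t) ≤ 1 * (M * t) :=
              mul_le_mul_of_nonneg_right a22P (by positivity)
            linarith
        have h8 : α ^ 2 * (2 + Real.log M + (36 * α * P) ^ θ * (1 + 1 / sg α σ)) ≤ 1 / 8 :=
          (hPar.c1).trans hh8
        have h9 : 0 ≤ α ^ 2 * ((36 * α * P) ^ θ * (1 + 1 / sg α σ)) := by positivity
        have h10 : α ^ 2 * Real.log (y.toReal / t) ≤ α ^ 2 * Real.log M :=
          mul_le_mul_of_nonneg_left h4 (by positivity)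
        have h11 : α ^ 2 * (2 + Real.log M + (36 * α * P) ^ θ * (1 + 1 / sg α σ)) =
            2 * α ^ 2 + α ^ 2 * Real.log M +
              α ^ 2 * ((36 * α * P) ^ θ * (1 + 1 / sg α σ)) := by ring
        linarith [sq_nonneg α]
      calc ENNReal.ofReal (α ^ 2 * Real.log (y.toReal / t)) + ENNReal.ofReal er
          ≤ ENNReal.ofReal 1 + ENNReal.ofReal 1 := by
            apply add_le_add
            · exact ENNReal.ofReal_le_ofReal h3
            · exact ENNReal.ofReal_le_ofReal (by linarith)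
        _ = 2 := by
          rw [ENNReal.ofReal_one]
          exact one_add_one_eq_two
    refine (Finset.sum_le_sum h1).trans ?_
    rw [← Finset.mul_sum]
    refine (mul_le_mul' le_rfl hcb0.1).trans ?_
    have h2 : (2 : ℝ≥0∞) = ENNReal.ofReal 2 := by simp
    rw [h2, ← ENNReal.ofReal_mul (by norm_num)]
    exact ENNReal.ofReal_le_ofReal (st_cb hNAT hPar hc hk hkB hX)
  -- the left side
  have hmB : ∀ j, Measurable fun x : ℕ → ℝ => BX (w1 K (M * B)) (M * B) j x := fun j =>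
    ((hPFM.1 (w1 K (M * B)) ((hPFM.2 K).1 (M * B))).2.1 (M * B) j).1
  have hfin : ∀ n : ℕ, ENNReal.ofReal (α ^ 2) * ∑ b ∈ Finset.range n,
      ∫⁻ x, Gf t' θ (BX (w1 K (M * B)) (M * B) b x) ∂(iid ν) +
      ENNReal.ofReal W * ∫⁻ x, Hf t' θ (BX (w1 K (M * B)) (M * B) 0 x) ∂(iid ν) ≤
      ENNReal.ofReal (((1 + ε) ^ 2 * g / (1 - (1 + ε) * h * p) ^ 2 + 2 * ε) *
        (M * na α σ c δ k B)) := by
    intro n
    have h1 : ∑ j ∈ Finset.range (n + 1), ∫⁻ x, (fun x => ENNReal.ofReal (α ^ 2) * Gf t' θ x +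
        ENNReal.ofReal W * Hf t' θ x) (BX (w1 K (M * B)) (M * B) j x) ∂(iid ν) =
        ENNReal.ofReal (α ^ 2) * ∑ b ∈ Finset.range (n + 1),
          ∫⁻ x, Gf t' θ (BX (w1 K (M * B)) (M * B) b x) ∂(iid ν) +
        ENNReal.ofReal W * ∑ b ∈ Finset.range (n + 1),
          ∫⁻ x, Hf t' θ (BX (w1 K (M * B)) (M * B) b x) ∂(iid ν) := by
      rw [Finset.mul_sum, Finset.mul_sum, ← Finset.sum_add_distrib]
      apply Finset.sum_congr rfl
      intro j _
      have m1 : Measurable fun x => Gf t' θ (BX (w1 K (M * B)) (M * B) j x) := hmG.comp (hmB j)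
      have m2 : Measurable fun x => Hf t' θ (BX (w1 K (M * B)) (M * B) j x) := hmH.comp (hmB j)
      simp only
      rw [lintegral_add_left (m1.const_mul _), lintegral_const_mul _ m1,
        lintegral_const_mul _ m2]
    have h2 : ENNReal.ofReal (α ^ 2) * ∑ b ∈ Finset.range n,
        ∫⁻ x, Gf t' θ (BX (w1 K (M * B)) (M * B) b x) ∂(iid ν) +
        ENNReal.ofReal W * ∫⁻ x, Hf t' θ (BX (w1 K (M * B)) (M * B) 0 x) ∂(iid ν) ≤
        ENNReal.ofReal (α ^ 2) * ∑ b ∈ Finset.range (n + 1),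
          ∫⁻ x, Gf t' θ (BX (w1 K (M * B)) (M * B) b x) ∂(iid ν) +
        ENNReal.ofReal W * ∑ b ∈ Finset.range (n + 1),
          ∫⁻ x, Hf t' θ (BX (w1 K (M * B)) (M * B) b x) ∂(iid ν) := by
      refine add_le_add (mul_le_mul' le_rfl ?_) (mul_le_mul' le_rfl ?_)
      · exact Finset.sum_le_sum_of_subset (Finset.range_subset_range.2 (Nat.le_succ n))
      · exact Finset.single_le_sum
          (f := fun b => ∫⁻ x, Hf t' θ (BX (w1 K (M * B)) (M * B) b x) ∂(iid ν))
          (fun _ _ => zero_le) (Finset.mem_range.2 (Nat.succ_pos n))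
    refine h2.trans ?_
    rw [← h1]
    refine (hcore (n + 1)).trans ((add_le_add (hcb (n + 1)) le_rfl).trans ?_)
    rw [← ENNReal.ofReal_add (by positivity) (by positivity)]
    apply ENNReal.ofReal_le_ofReal
    have h3 : (1 + ε) ^ 2 * (er * p / (1 - (1 + ε) * h * p)) ≤ ε := by
      have h4 : er * p / (1 - (1 + ε) * h * p) ≤ 4 * α * (2 * P) / (3 / 4) := by
        apply div_le_div₀ (by positivity) _ (by norm_num) (by linarith)
        exact mul_le_mul her1 p1 p0 (by positivity)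
      have h5 : (1 + ε) ^ 2 ≤ 4 := by
        have h12 : (1 + ε) ^ 2 ≤ 2 ^ 2 :=
          pow_le_pow_left₀ (by positivity) (by linarith [hPar.ε1]) 2
        linarith
      have h6 : 0 ≤ 4 * α * (2 * P) / (3 / 4) := by positivity
      have h7 : 0 ≤ er * p / (1 - (1 + ε) * h * p) := by positivity
      calc (1 + ε) ^ 2 * (er * p / (1 - (1 + ε) * h * p)) ≤ 4 * (4 * α * (2 * P) / (3 / 4)) :=
            mul_le_mul h5 h4 h7 (by norm_num)
        _ ≤ 64 * α * P := by
          have h13 : 0 ≤ α * P := by positivity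
          have h14 : 4 * (4 * α * (2 * P) / (3 / 4)) = 128 / 3 * (α * P) := by ring
          have h15 : 64 * α * P = 64 * (α * P) := by ring
          rw [h14, h15]
          linarith
        _ ≤ ε := hPar.c6
    have h8 : 0 ≤ (M : ℝ) * na α σ c δ k B := by positivity
    have h9 : (M : ℝ) * na α σ c δ k B * ((1 + ε) ^ 2 * (g / (1 - (1 + ε) * h * p) ^ 2 +
        er * p / (1 - (1 + ε) * h * p))) =
        ((1 + ε) ^ 2 * g / (1 - (1 + ε) * h * p) ^ 2) * (M * na α σ c δ k B) +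
        ((1 + ε) ^ 2 * (er * p / (1 - (1 + ε) * h * p))) * (M * na α σ c δ k B) := by
      ring
    have h10 := mul_le_mul_of_nonneg_right h3 h8
    have h11 : ((1 + ε) ^ 2 * g / (1 - (1 + ε) * h * p) ^ 2 + 2 * ε) *
        (M * na α σ c δ k B) =
        ((1 + ε) ^ 2 * g / (1 - (1 + ε) * h * p) ^ 2) * (M * na α σ c δ k B) +
        2 * (ε * (M * na α σ c δ k B)) := by
      ring
    rw [h9, h11]
    linarith
  unfold QG QN
  rw [hnM, ← mul_div_assoc, ← ENNReal.add_div]
  apply ENNReal.div_le_of_le_mul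
  rw [← ENNReal.ofReal_mul (by positivity)]
  refine le_trans (add_le_add le_rfl (mul_le_mul' (ENNReal.ofReal_le_ofReal hhW) le_rfl)) ?_
  rw [ENNReal.tsum_eq_iSup_nat, ENNReal.mul_iSup, ENNReal.iSup_add]
  exact iSup_le hfin

end Pool.Agent.H99.CE
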