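import Pool.Agent.H55.CU.Defs
import Pool.Agent.H55.CU.Targets

/-!
# The exact constant of the gap of the copolymer slope, upper half: definitions (helper99)

Problem `MP_65efe8_pr`. One exponent `th α σ`, a little larger than `1/(1+α)`, at all scales. Scale
`B` (in sites): excursions above the interface have at most `B` sites, those below the interface are
arbitrary. `BX (w1 K B) B j` is the sum over all stretches from box `0` to box `j` (boxes of `B`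
sites). `ex`, `pk`, `Wn`, `Mo`, `Vn` are those of `Pool.Agent.H96.Cop`.
-/

set_option autoImplicit false

open MeasureTheory ProbabilityTheory Filter Topology
open scoped ENNReal
open Pool.Agent.H95 Pool.Agent.H95.Cop Pool.Agent.H96.Cop

namespace Pool.Agent.H99.CE

/-! ## Polymers -/

/-- pinned partition function; `w n x` is the weight of an excursion of `n` sites -/
noncomputable def PF (w : ℕ → (ℕ → ℝ) → ℝ≥0∞) : ℕ → (ℕ → ℝ) → ℝ≥0∞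
  | 0, _ => 1
  | (s + 1), x => ∑ j : Fin (s + 1), w (j + 1) x * PF w (s - j) (shift (j + 1) x)

lemma PF_zero (w : ℕ → (ℕ → ℝ) → ℝ≥0∞) (x : ℕ → ℝ) : PF w 0 x = 1 := by rw [PF]

lemma PF_succ (w : ℕ → (ℕ → ℝ) → ℝ≥0∞) (s : ℕ) (x : ℕ → ℝ) : PF w (s + 1) x =
    ∑ j ∈ Finset.range (s + 1), w (j + 1) x * PF w (s - j) (shift (j + 1) x) := by
  rw [PF, Finset.sum_range]

/-- regular weights -/
def WR (w : ℕ → (ℕ → ℝ) → ℝ≥0∞) : Prop := ∀ n, Measurable (w n) ∧ DepLt n (w n) ∧ ∀ x, w n x ≠ ∞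

/-- excursions above the interface of at most `B` sites -/
noncomputable def wa (K : PMF ℕ) (B n : ℕ) : ℝ≥0∞ := if n ≤ B then pk K n * 2⁻¹ else 0

/-- excursions below the interface -/
noncomputable def wb (K : PMF ℕ) (n : ℕ) (x : ℕ → ℝ) : ℝ≥0∞ := pk K n * 2⁻¹ * ex 0 n x

/-- weights at scale `B` -/
noncomputable def w1 (K : PMF ℕ) (B n : ℕ) (x : ℕ → ℝ) : ℝ≥0∞ := wa K B n + wb K n x

/-- neutral weights: at most `B` sites above, at most `k` sites below the interface -/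
noncomputable def w0 (K : PMF ℕ) (B k n : ℕ) (x : ℕ → ℝ) : ℝ≥0∞ :=
  wa K B n + if n ≤ k then wb K n x else 0

/-- stretches from box `0` to box `j`, boxes of `B` sites -/
noncomputable def BX (w : ℕ → (ℕ → ℝ) → ℝ≥0∞) (B j : ℕ) (x : ℕ → ℝ) : ℝ≥0∞ :=
  ∑ e ∈ Finset.range B, ∑ r ∈ Finset.range B,
    (if e ≤ j * B + r then PF w (j * B + r - e) (shift e x) else 0)

/-- stretches from cell `0` to cell `a`, with the partial excursions in the two cells -/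
noncomputable def NX (w : ℕ → (ℕ → ℝ) → ℝ≥0∞) (k : ℕ) (p q : Bool) (a : ℕ) (x : ℕ → ℝ) : ℝ≥0∞ :=
  ∑ e ∈ Finset.range k, ∑ r ∈ Finset.range k, (if e ≤ a * k + r then
    (if p then ex 0 e x else 1) * PF w (a * k + r - e) (shift e x) *
      (if q then ex (a * k + r) ((a + 1) * k) x else 1) else 0)

/-- sum over the targets `T` of a family of stretches; position `p`, environment from box `p` on -/
noncomputable def CT (G : ℕ → (ℕ → ℝ) → ℝ≥0∞) (T : Finset ℕ) (p : ℕ) (x : ℕ → ℝ) : ℝ≥0∞ :=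
  ∑ j ∈ T, if p ≤ j then G (j - p) x else 0

/-- the same after a stretch which has ended in box `q`; environment from box `q + 1` on -/
noncomputable def VT (G : ℕ → (ℕ → ℝ) → ℝ≥0∞) (l : ℕ → ℝ≥0∞) (B : ℕ) (T : Finset ℕ) (L q : ℕ)
    (x : ℕ → ℝ) : ℝ≥0∞ :=
  (if q ∈ T then 1 else 0) + ∑ D ∈ Finset.Icc 1 (L - 1 - q), l D * CT G T (q + D) (shift ((D - 1) * B) x)

/-! ## Concave functions -/

/-- infima of affine functions, vanishing at `0` -/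
def Cc (φ : ℝ≥0∞ → ℝ≥0∞) : Prop := φ 0 = 0 ∧ ∃ (ι : Type) (α β : ι → ℝ≥0∞), Nonempty ι ∧
  (∀ i, α i ≠ ∞ ∧ β i ≠ ∞) ∧ ∀ x, φ x = ⨅ i, (α i + β i * x)

/-- linear up to `t`, then the power `θ` -/
noncomputable def Hf (t θ : ℝ) (x : ℝ≥0∞) : ℝ≥0∞ := min (ENNReal.ofReal (t ^ (θ - 1)) * x) (x ^ θ)

/-- linear up to `t`, then `x ^ θ (log (x / t) + 1 / (1 - θ))` -/
noncomputable def Gf (t θ : ℝ) (x : ℝ≥0∞) : ℝ≥0∞ := ⨅ m : {m : ℝ // t ≤ m},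
  (ENNReal.ofReal (m.1 ^ θ * ((1 - θ) * Real.log (m.1 / t))) +
    ENNReal.ofReal (m.1 ^ (θ - 1) * (θ * Real.log (m.1 / t) + 1 / (1 - θ))) * x)

/-- positive part of `log (x / t)` -/
noncomputable def lg (t : ℝ) (x : ℝ≥0∞) : ℝ≥0∞ := ENNReal.ofReal (Real.log (x.toReal / t))

/-- the larger of `y` and `y ^ θ` -/
noncomputable def mx (θ : ℝ) (y : ℝ≥0∞) : ℝ≥0∞ := max y (y ^ θ)

/-! ## Chains of stretches -/

/-- recursion of a chain of stretches `F` with links `l` and targets `T`, `L` boxes in all -/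
structure Chn (B L : ℕ) (F : ℕ → (ℕ → ℝ) → ℝ≥0∞) (l : ℕ → ℝ≥0∞) (T : Finset ℕ)
    (C V : ℕ → (ℕ → ℝ) → ℝ≥0∞) : Prop where
  mF : ∀ b, Measurable (F b) ∧ DepLt ((b + 1) * B) (F b) ∧ ∀ x, F b x ≠ ∞
  mC : ∀ p, Measurable (C p)
  mV : ∀ q, Measurable (V q)
  recC : ∀ p < L, ∀ x, C p x ≤
    ∑ b ∈ Finset.range (L - p), F b x * V (p + b) (shift ((b + 1) * B) x)
  recV : ∀ q < L, ∀ x, V q x ≤ (if q ∈ T then 1 else 0) +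
    ∑ D ∈ Finset.Icc 1 (L - 1 - q), l D * C (q + D) (shift ((D - 1) * B) x)

/-- the stretches of the skeleton: the high ones in one box, and those over several boxes -/
noncomputable def EE (F : ℕ → (ℕ → ℝ) → ℝ≥0∞) (tt : ℝ≥0∞) (b : ℕ) (x : ℕ → ℝ) : ℝ≥0∞ :=
  if b = 0 then (if F 0 x ≤ tt then 0 else F 0 x) else F b x

/-- the low stretches in one box -/
noncomputable def FL (F : ℕ → (ℕ → ℝ) → ℝ≥0∞) (tt : ℝ≥0∞) (x : ℕ → ℝ) : ℝ≥0∞ :=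
  if F 0 x ≤ tt then F 0 x else 0

/-- coefficients of the starts -/
noncomputable def ab (lam : ℝ≥0∞) (Kb : ℕ → ℝ≥0∞) (M p : ℕ) : ℝ≥0∞ :=
  (if p < M then 1 else 0) + lam * ∑ i ∈ Finset.range (min M p), Kb (p - i)

/-- coefficients of the ends -/
noncomputable def eb (lam : ℝ≥0∞) (Kb : ℕ → ℝ≥0∞) (T : Finset ℕ) (L q : ℕ) : ℝ≥0∞ :=
  (if q ∈ T then 1 else 0) + lam * ∑ D ∈ Finset.Icc 1 L, if q + D ∈ T then Kb D else 0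

/-- the cells or boxes of the big box `j` -/
def TT (M j : ℕ) : Finset ℕ := Finset.Ico (j * M) ((j + 1) * M)

/-- recursion of a chain of neutral stretches `Np` and long excursions below the interface -/
structure Bch (k L : ℕ) (Ne Np : ℕ → (ℕ → ℝ) → ℝ≥0∞) (g : ℕ → ℝ≥0∞) (T : Finset ℕ)
    (V : ℕ → (ℕ → ℝ) → ℝ≥0∞) : Prop where
  mNe : ∀ a, Measurable (Ne a)
  mNp : ∀ a, Measurable (Np a) ∧ DepLt ((a + 1) * k) (Np a)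
  mV : ∀ p, Measurable (V p)
  zero : ∀ p x, (∀ c ∈ T, c < p) → V p x = 0
  recV : ∀ p < L, ∀ x, V p x ≤ (∑ c ∈ T, if p ≤ c then Ne (c - p) x else 0) +
    ∑ i ∈ Finset.range (L - p), ∑ D ∈ Finset.Icc 1 (L - 1 - p - i), Np i x *
      (g D * ex ((i + 1) * k) ((i + D) * k) x * V (p + i + D) (shift ((i + D) * k) x))

/-! ## Parameters -/

/-- the exponent -/
noncomputable def th (α σ : ℝ) : ℝ := 1 / (1 + α) + σ * α ^ 2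

/-- `(1 + α) th = 1 + sg` -/
noncomputable def sg (α σ : ℝ) : ℝ := (1 + α) * (σ * α ^ 2)

/-- constant of the thresholds -/
noncomputable def cq (c δ : ℝ) : ℝ := (1 + δ) ^ 2 * c / 2

/-- the threshold at scale `B` -/
noncomputable def tb (α c δ : ℝ) (B : ℕ) : ℝ := (B : ℝ) ^ (1 + α) / cq c δ

/-- the unit of the moments at scale `B`, cells of `k` sites -/
noncomputable def na (α σ c δ : ℝ) (k B : ℕ) : ℝ :=
  α ^ 2 * (B : ℝ) * (k : ℝ) ^ sg α σ * cq c δ ^ (-th α σ)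

/-- asymptotics of the inter-arrival law, up to the factors `1 - δ` and `1 + δ` -/
def Reg (K : PMF ℕ) (α c δ : ℝ) (n0 : ℕ) : Prop := ∀ n : ℕ, n0 ≤ n →
  (1 - δ) * c * (n : ℝ) ^ (-(1 + α)) ≤ kk K n ∧ kk K n ≤ (1 + δ) * c * (n : ℝ) ^ (-(1 + α))

/-- shape of the links -/
noncomputable def wq (α : ℝ) (D : ℕ) : ℝ := ((max (D - 1) 1 : ℕ) : ℝ) ^ (-(1 + α))

/-- links over `D` boxes, threshold `t`, `M` boxes in a big box -/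
noncomputable def ld (α t δ : ℝ) (M D : ℕ) : ℝ≥0∞ :=
  if D ≤ M then ENNReal.ofReal (wq α D / ((1 + δ) * t)) else 0

/-- the same including the low boxes -/
noncomputable def Kd (α t η : ℝ) (M D : ℕ) : ℝ≥0∞ :=
  ENNReal.ofReal (wq α D / t * (if D ≤ M then 1 else η))

/-- total moment of order `th` -/
noncomputable def QT (K : PMF ℕ) (ν : Measure ℝ) (α σ c δ : ℝ) (k B : ℕ) : ℝ≥0∞ :=
  (∑' b : ℕ, ∫⁻ x, BX (w1 K B) B b x ^ th α σ ∂(iid ν)) / ENNReal.ofReal (na α σ c δ k B)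

/-- moment of the stretches over several boxes -/
noncomputable def QR (K : PMF ℕ) (ν : Measure ℝ) (α σ c δ : ℝ) (k B : ℕ) : ℝ≥0∞ :=
  (∑' b : ℕ, (b : ℝ≥0∞) * ∫⁻ x, BX (w1 K B) B b x ^ th α σ ∂(iid ν)) /
    ENNReal.ofReal (na α σ c δ k B)

/-- moment of the stretches in one box -/
noncomputable def QN (K : PMF ℕ) (ν : Measure ℝ) (α σ c δ : ℝ) (k B : ℕ) : ℝ≥0∞ :=
  (∫⁻ x, Hf (tb α c δ B) (th α σ) (BX (w1 K B) B 0 x) ∂(iid ν)) / ENNReal.ofReal (na α σ c δ k B)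

/-- logarithmic moment -/
noncomputable def QG (K : PMF ℕ) (ν : Measure ℝ) (α σ c δ : ℝ) (k B : ℕ) : ℝ≥0∞ :=
  ENNReal.ofReal (α ^ 2) * (∑' b : ℕ, ∫⁻ x, Gf (tb α c δ B) (th α σ) (BX (w1 K B) B b x) ∂(iid ν)) /
    ENNReal.ofReal (na α σ c δ k B)

/-- numerical conditions for one step; `X` bounds `(B / k) ^ sg` -/
structure Par (α σ δ h P ε : ℝ) (M : ℕ) (X : ℝ) : Prop where
  α0 : 0 < α
  α1 : α ≤ 1 / 4
  σ0 : 0 < σ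
  δ0 : 0 < δ
  δ1 : δ ≤ 1
  h0 : 0 < h
  P1 : 1 ≤ P
  ε0 : 0 < ε
  ε1 : ε ≤ 1
  M1 : 1 ≤ M
  t0 : 1 / 2 ≤ th α σ
  t1 : th α σ ≤ 1 - α / 2
  hM : h / α ^ 2 ≤ Real.log M
  cδ : 72 * α * P ≤ δ
  c1 : α ^ 2 * (2 + Real.log M + (36 * α * P) ^ th α σ * (1 + 1 / sg α σ)) ≤ (1 + ε) * h
  c2 : (1 + ε) * h * (2 * P) ≤ 1 / 4
  c3 : 2 * α * P + (2 * α * P) ^ th α σ + (36 * α ^ 3 * P ^ 2) ^ th α σ * (1 + 1 / sg α σ) ≤ ε
  c4 : 2 * (α ^ 2 * P) ^ th α σ * (4 + 1 / sg α σ) * (M : ℝ) ^ (th α σ - 1) * X / α ^ 2 ≤ ε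
  c5 : 2 * P / M + 4 * α ^ 2 * P ^ 2 ≤ ε
  c6 : 64 * α * P ≤ ε

/-- mean neutral weights -/
noncomputable def kc (K : PMF ℕ) (B k : ℕ) (Bd : ℝ≥0∞) (n : ℕ) : ℝ≥0∞ :=
  wa K B n + if n ≤ k then pk K n * 2⁻¹ * Bd ^ n else 0

/-- weight of an excursion below the interface over `D` cells -/
noncomputable def gd (α c δ : ℝ) (k D : ℕ) : ℝ≥0∞ :=
  ENNReal.ofReal ((1 + δ) * c / 2 * (k : ℝ) ^ (-(1 + α)) * wq α D)

/-- decay rate per cell of the moments of the excursions below the interface -/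
noncomputable def kp (α σ d δ : ℝ) : ℝ := (1 - δ) * (2 * (δ / 4) * α * th α σ * (d - σ))

/-- conditions on the law `ν` of the charges, cells of `k` sites -/
structure Env (ν : Measure ℝ) (α σ d δ : ℝ) (k : ℕ) (b : ℝ) : Prop where
  b0 : 0 ≤ b
  bk : b * k ≤ δ
  mo1 : Mo ν 1 ≤ ENNReal.ofReal (Real.exp b)
  mot : Mo ν (th α σ) ≤ 1
  mok : Mo ν (th α σ) ^ k ≤ ENNReal.ofReal (Real.exp (-kp α σ d δ))
  moe : ∀ i : ℕ, 1 ≤ i → ∫⁻ x, ex 0 (i * k) x ^ th α σ * ENNReal.ofReal (H x 0 (i * k)) ∂(iid ν) ≤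
    ENNReal.ofReal ((1 + δ) * (2 * (δ / 4 / α) * i) * Real.exp (-(kp α σ d δ * i)))

/-- hypotheses of the induction over the boxes -/
structure VH (ν : Measure ℝ) (B M J : ℕ) (F : ℕ → (ℕ → ℝ) → ℝ≥0∞) (l : ℕ → ℝ≥0∞)
    (C V : ℕ → ℕ → (ℕ → ℝ) → ℝ≥0∞) (φ : ℝ≥0∞ → ℝ≥0∞) (tt lam : ℝ≥0∞) (Kb : ℕ → ℝ≥0∞) (θ : ℝ)
    (u : ℝ≥0∞ → ℝ≥0∞) (e1 Es mh uh kh v w : ℝ≥0∞) : Prop where
  M1 : 1 ≤ M
  ch : ∀ j < J, Chn B (J * M) F l (TT M j) (C j) (V j)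
  cc : Cc φ
  hl : ∫⁻ x, FL F tt x ∂(iid ν) ≤ lam
  lf : lam ≠ ∞
  Kf : ∀ D, Kb D ≠ ∞
  sup : ∀ D, 1 ≤ D → l D + lam * ∑ i ∈ Finset.Ico 1 D, Kb i * l (D - i) ≤ Kb D
  θ0 : 0 < θ
  θ1 : θ < 1
  mu : Measurable u
  hφ : ∀ x, x ≠ ∞ → φ x ≤ x ^ θ * (u x + e1)
  um : ∀ x y, x ≤ y → y ≠ ∞ → u x ≤ u y
  hu : ∀ D, 1 ≤ D → ∀ z y, z ≠ ∞ → y ≠ ∞ → u (z * (Kb D * y)) ≤ u z + u y
  hE : ∀ q, ∑ j ∈ Finset.range J, mx θ (eb lam Kb (TT M j) (J * M) q) ≤ Es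
  hm : ∑ b ∈ Finset.range (J * M), ∫⁻ x, EE F tt b x ^ θ ∂(iid ν) ≤ mh
  hh : ∑ b ∈ Finset.range (J * M), ∫⁻ x, EE F tt b x ^ θ * u (EE F tt b x) ∂(iid ν) ≤ uh
  hk : ∑ D ∈ Finset.Icc 1 (J * M), Kb D ^ θ ≤ kh
  hv : Es + kh * mh * v ≤ v
  hw : e1 * Es + kh * mh * w + kh * uh * v ≤ w

/-- mass between the start box and the cell `i` -/
noncomputable def sb (Vb : ℕ → ℝ≥0∞) (n0 i : ℕ) : ℝ≥0∞ :=
  ∑ c ∈ Finset.range (min n0 (i + 1)), Vb (i - c)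

/-- mass between the cell `p` and the targets `T` -/
noncomputable def eT (Vb : ℕ → ℝ≥0∞) (T : Finset ℕ) (p : ℕ) : ℝ≥0∞ :=
  ∑ c ∈ T, if p ≤ c then Vb (c - p) else 0

/-- hypotheses of the induction over the cells -/
structure BH (ν : Measure ℝ) (k n0 J : ℕ) (Ne Np : ℕ → (ℕ → ℝ) → ℝ≥0∞) (g : ℕ → ℝ≥0∞)
    (V : ℕ → ℕ → (ℕ → ℝ) → ℝ≥0∞) (Vb : ℕ → ℝ≥0∞) (φ : ℝ≥0∞ → ℝ≥0∞) (θ : ℝ)
    (u up : ℝ≥0∞ → ℝ≥0∞) (e1 T0 : ℝ≥0∞) (ω : ℕ → ℝ≥0∞) (Es qq qu v w : ℝ≥0∞) : Prop where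
  k1 : 1 ≤ k
  n1 : 1 ≤ n0
  ch : ∀ j < J, Bch k (J * n0) Ne Np g (TT n0 j) (V j)
  ne : ∀ a, ∫⁻ x, Ne a x ∂(iid ν) ≤ Vb a
  np : ∀ a, ∫⁻ x, Np a x ∂(iid ν) ≤ Vb a
  Vf : ∀ a, Vb a ≠ ∞
  gf : ∀ D, g D ≠ ∞
  cc : Cc φ
  θ0 : 0 < θ
  θ1 : θ < 1
  mu : Measurable u
  mup : Measurable up
  hφ : ∀ z e, z ≠ ∞ → e ≤ T0 → φ (z * e) ≤ (z * e) ^ θ * (u z + e1)
  hu : ∀ z i D y, z ≠ ∞ → y ≠ ∞ → u (z * (Vb i * g D * y)) ≤ u z + up y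
  ω1 : ∀ r, 1 ≤ ω r
  ωf : ∀ r, ω r ≠ ∞
  ωm : Monotone ω
  ωs : ∀ r s, ω (r + s) ≤ ω r * ω s
  hT : ∀ p, ∀ j < J, eT Vb (TT n0 j) p ≤ T0
  hE : ∀ p, ∑ j ∈ Finset.Ico (p / n0) J, ω (j - p / n0) * eT Vb (TT n0 j) p ^ θ ≤ Es
  hq : ∑ i ∈ Finset.range (J * n0), ∑ D ∈ Finset.Icc 1 (J * n0), ω ((i + D) / n0 + 1) *
    ((Vb i * g D) ^ θ * ∫⁻ x, ex 0 ((D - 1) * k) x ^ θ ∂(iid ν)) ≤ qq
  hqu : ∑ i ∈ Finset.range (J * n0), ∑ D ∈ Finset.Icc 1 (J * n0), ω ((i + D) / n0 + 1) *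
    ((Vb i * g D) ^ θ *
      ∫⁻ x, ex 0 ((D - 1) * k) x ^ θ * up (ex 0 ((D - 1) * k) x) ∂(iid ν)) ≤ qu
  hv : Es + qq * v ≤ v
  hw : e1 * Es + qq * w + qu * v ≤ w

/-- numerical conditions for the base -/
structure BPar (α σ d δ : ℝ) (n0 : ℕ) (Nb g0 : ℝ) : Prop where
  α0 : 0 < α
  α1 : α ≤ 1 / 2 ^ 50
  αδ : 5 * α ≤ δ
  σ0 : 0 < σ
  δ0 : 0 < δ
  δ1 : δ ≤ 1 / 20
  tl : 1 - α ≤ th α σ
  tu : th α σ ≤ 1 - α / 2
  dσ : 1 ≤ d - σ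
  kp1 : kp α σ d δ ≤ 1
  n2 : 2 ≤ n0
  a1 : α * Real.log n0 ≤ δ * n0
  a2 : (n0 : ℝ) ^ (-(α * th α σ)) ≤ δ / 100
  a3 : 10 ≤ n0 * kp α σ d δ
  a4 : α ^ (2 * th α σ - 2) ≤ 1 + δ
  a5 : 128 * ((64 * α + 2 ^ 23 * α ^ 2 * (1 + Real.log n0)) *
    (6 + 2 * Real.log (1 / kp α σ d δ))) ≤ δ
  a6 : 16 * (n0 : ℝ) ^ (th α σ - 1) / α ≤ δ
  b1 : 2 ^ 8 * (6 + 2 * Real.log (1 / kp α σ d δ)) + 1 ≤ Nb
  b3 : (1 + 100 * δ) / (d - σ) + 2 * δ ≤ g0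

/-- bound of the neutral mass -/
noncomputable def mb (α c δ : ℝ) (k : ℕ) : ℝ := (1 + 16 * δ) * (2 * α / c) * (k : ℝ) ^ (1 + α)

/-- first moments of the neutral stretches -/
noncomputable def Vb (K : PMF ℕ) (n0 k : ℕ) (b : ℝ) (a : ℕ) : ℝ≥0∞ :=
  ENNReal.ofReal (Real.exp (2 * b * k)) * Vn (kc K (n0 * k) k (ENNReal.ofReal (Real.exp b))) k a

/-- the weights `1 + r` -/
noncomputable def om (r : ℕ) : ℝ≥0∞ := 1 + (r : ℝ≥0∞)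

/-! ## Choices for small `α` -/

/-- `log (1 / α)` -/
noncomputable def Lg (α : ℝ) : ℝ := Real.log (1 / α)

/-- cells in the first box -/
noncomputable def n0f (α : ℝ) : ℕ := ⌈Real.exp (Lg α ^ 2 / α)⌉₊

/-- step -/
noncomputable def hf (α : ℝ) : ℝ := (Lg α ^ 3)⁻¹

/-- ratio of two scales -/
noncomputable def Mf (α : ℝ) : ℕ := ⌈Real.exp (hf α / α ^ 2)⌉₊

/-- number of steps -/
noncomputable def Jf (α : ℝ) : ℕ := ⌈Lg α ^ 4⌉₊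

/-- bound of `(B / k) ^ sg` -/
noncomputable def Xf (α σ : ℝ) : ℝ := ((Mf α ^ Jf α * n0f α : ℕ) : ℝ) ^ sg α σ

end Pool.Agent.H99.CE
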