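import Pool.Agent.H99.CE.Targets

set_option autoImplicit false

open MeasureTheory ProbabilityTheory Filter Topology
open scoped ENNReal
open Pool.Agent.H95 Pool.Agent.H95.Cop Pool.Agent.H96.Cop Pool.Agent.H99.CE

namespace Pool.Agent.H99.CE

/-- real inequalities for one step -/
lemma st_real {α σ δ h P ε X : ℝ} {M : ℕ} (hp : Par α σ δ h P ε M X) {p : ℝ} (p0 : 0 ≤ p)
    (p1 : p ≤ 2 * P) : 0 ≤ (1 + ε) * h * p ∧ (1 + ε) * h * p ≤ 1 / 4 ∧ (1 + ε) * h ≤ 1 / 8 ∧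
    0 ≤ 36 * α * P ∧ 36 * α * P ≤ 1 ∧ 36 * α * P ≤ δ ∧ 2 * α * P ≤ 1 ∧ 2 * α ^ 2 * P ≤ 1 ∧
    0 < th α σ ∧ th α σ < 1 := by
  have hα := hp.α0
  have hP := hp.P1
  have hε := hp.ε0
  have hh := hp.h0
  have h1 : 0 < (1 + ε) * h := by positivity
  have h2 := hp.c2
  have h3 := hp.cδ
  have h4 := hp.δ1
  have h5 : 0 ≤ α * P := by positivity
  have h6 := hp.c5
  have h7 : 0 ≤ 2 * P / M := by positivity
  have h8 := hp.ε1
  have h9 : α ^ 2 * P ≤ α ^ 2 * P ^ 2 := by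
    have : P ≤ P ^ 2 := by nlinarith
    exact mul_le_mul_of_nonneg_left this (by positivity)
  refine ⟨by positivity, ?_, ?_, by positivity, ?_, ?_, ?_, ?_, ?_, ?_⟩
  · exact (mul_le_mul_of_nonneg_left p1 h1.le).trans h2
  · nlinarith
  · nlinarith
  · nlinarith
  · nlinarith
  · nlinarith
  · linarith [hp.t0]
  · linarith [hp.t1]

lemma st_Kd {α t η : ℝ} (hα : 0 < α) (ht : 0 < t) (h0 : 0 ≤ η) (h1 : η ≤ 1) (M D : ℕ) :
    (Kd α t η M D).toReal ≤ 1 / t := by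
  unfold Kd
  have hw0 : 0 ≤ wq α D := by unfold wq; positivity
  have hw1 : wq α D ≤ 1 := by
    unfold wq
    apply Real.rpow_le_one_of_one_le_of_nonpos
    · exact_mod_cast le_max_right _ _
    · linarith
  rw [ENNReal.toReal_ofReal]
  · have h2 : (if D ≤ M then (1 : ℝ) else η) ≤ 1 := by split_ifs <;> linarith
    have h3 : 0 ≤ (if D ≤ M then (1 : ℝ) else η) := by split_ifs <;> linarith
    calc wq α D / t * (if D ≤ M then 1 else η) ≤ 1 / t * 1 :=
          mul_le_mul (by gcongr) h2 h3 (by positivity)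
      _ = 1 / t := mul_one _
  · have h3 : 0 ≤ (if D ≤ M then (1 : ℝ) else η) := by split_ifs <;> linarith
    positivity

/-- the contribution of the low boxes in the new unit -/
lemma st_cb (hNAT : T_NAT) {α σ c δ h P ε X : ℝ} {M k B : ℕ} (hp : Par α σ δ h P ε M X)
    (hc : 0 < c) (hk : 1 ≤ k) (hkB : k ≤ B) (hX : ((B : ℝ) / k) ^ sg α σ ≤ X) :
    2 * ((α ^ 2 * P * tb α c δ B * M) ^ th α σ * (4 + 1 / sg α σ)) ≤
      ε * (M * na α σ c δ k B) := by
  obtain ⟨hna, ht, -, -, hn, -, hs, -⟩ := hNAT α σ c δ k B M hp.α0 hp.σ0 hc hp.δ0 hk hkB hp.M1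
  have hα := hp.α0
  have hP := hp.P1
  have hM : (0 : ℝ) < M := by exact_mod_cast hp.M1
  have hk0 : (0 : ℝ) < k := by exact_mod_cast hk
  have hB0 : (0 : ℝ) < B := lt_of_lt_of_le hk0 (by exact_mod_cast hkB)
  have hBk : 0 < ((B : ℝ) / k) ^ sg α σ := by positivity
  have hX0 : 0 < X := lt_of_lt_of_le hBk hX
  have e1 : ((k : ℝ) / B) ^ sg α σ = (((B : ℝ) / k) ^ sg α σ)⁻¹ := by
    rw [← Real.inv_rpow (by positivity), inv_div]
  have e2 : 1 / X ≤ ((k : ℝ) / B) ^ sg α σ := by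
    rw [e1, one_div]
    exact inv_anti₀ hBk hX
  have e3 : (α ^ 2 * P * tb α c δ B * M) ^ th α σ =
      (α ^ 2 * P) ^ th α σ * tb α c δ B ^ th α σ * (M : ℝ) ^ th α σ := by
    rw [Real.mul_rpow (by positivity) hM.le, Real.mul_rpow (by positivity) ht.le]
  have e4 : (M : ℝ) ^ th α σ = (M : ℝ) ^ (th α σ - 1) * M := by
    rw [Real.rpow_sub_one hM.ne']
    field_simp
  have htθ : 0 < tb α c δ B ^ th α σ := by positivity
  have h4 := hp.c4
  rw [hn, e3, e4]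
  calc 2 * ((α ^ 2 * P) ^ th α σ * tb α c δ B ^ th α σ * ((M : ℝ) ^ (th α σ - 1) * M) *
        (4 + 1 / sg α σ))
      = 2 * (α ^ 2 * P) ^ th α σ * (4 + 1 / sg α σ) * (M : ℝ) ^ (th α σ - 1) * X / α ^ 2 *
        (M * (α ^ 2 * tb α c δ B ^ th α σ * (1 / X))) := by
        field_simp
    _ ≤ ε * (M * (α ^ 2 * tb α c δ B ^ th α σ * (1 / X))) :=
        mul_le_mul_of_nonneg_right h4 (by positivity)
    _ ≤ ε * (M * (α ^ 2 * tb α c δ B ^ th α σ * ((k : ℝ) / B) ^ sg α σ)) := by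
        have := hp.ε0
        gcongr

/-- one step for a concave function -/
lemma st_core (hINS : T_INS) (hASP : T_ASP) (hLNK : T_LNK) (hSUP : T_SUP) (hKHT : T_KHT)
    (hSHT : T_SHT) (hEST : T_EST) (hNAT : T_NAT) (hSTL : T_STL) (hSTM : T_STM) (K : PMF ℕ)
    (ν : Measure ℝ) [IsProbabilityMeasure ν] {α σ c δ h P ε X : ℝ} {M n0 k B : ℕ}
    (hPar : Par α σ δ h P ε M X) (hc : 0 < c) (hR : Reg K α c δ n0) (hk : 1 ≤ k) (hkB : k ≤ B)
    (hn0 : n0 ≤ B) (hQT : QT K ν α σ c δ k B ≤ ENNReal.ofReal P) {p g er : ℝ}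
    (p0 : 0 ≤ p) (p1 : p ≤ 2 * P) (g0 : 0 ≤ g) (er0 : 0 ≤ er)
    (hQN : QN K ν α σ c δ k B + QR K ν α σ c δ k B ≤ ENNReal.ofReal p)
    {φ u : ℝ≥0∞ → ℝ≥0∞} (hcc : Cc φ) (hmono : Monotone φ) (mu : Measurable u)
    (hφ : ∀ x, x ≠ ∞ → φ x ≤ x ^ th α σ * (u x + ENNReal.ofReal er))
    (um : ∀ x y, x ≤ y → y ≠ ∞ → u x ≤ u y)
    (hu : ∀ D, 1 ≤ D → ∀ z y, z ≠ ∞ → y ≠ ∞ →
      u (z * (Kd α (tb α c δ B) (36 * α * P) M D * y)) ≤ u z + u y)
    (hh : ∀ n : ℕ, ∑ b ∈ Finset.range n, ∫⁻ x,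
      EE (fun b => BX (w1 K B) B b) (ENNReal.ofReal (tb α c δ B)) b x ^ th α σ *
      u (EE (fun b => BX (w1 K B) B b) (ENNReal.ofReal (tb α c δ B)) b x) ∂(iid ν) ≤
      ENNReal.ofReal (na α σ c δ k B * g)) (J : ℕ) :
    ∑ j ∈ Finset.range J, ∫⁻ x, φ (BX (w1 K (M * B)) (M * B) j x) ∂(iid ν) ≤
      ∑ j ∈ Finset.range J, φ (ENNReal.ofReal (α ^ 2 * P * tb α c δ B) * ∑ p ∈ TT M j,
        ab (ENNReal.ofReal (α ^ 2 * P * tb α c δ B)) (Kd α (tb α c δ B) (36 * α * P) M) M p) +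
      ENNReal.ofReal (M * na α σ c δ k B * ((1 + ε) ^ 2 * (g / (1 - (1 + ε) * h * p) ^ 2 +
        er * p / (1 - (1 + ε) * h * p)))) := by
  obtain ⟨q0, q1, hh8, et0, et1, etd, a2P, a22P, θ0, θ1⟩ := st_real hPar p0 p1
  obtain ⟨hna, ht, -, -, hn, hsθ, hs, hnt⟩ :=
    hNAT α σ c δ k B M hPar.α0 hPar.σ0 hc hPar.δ0 hk hkB hPar.M1
  have hα := hPar.α0
  have hα1 : α ≤ 1 / 2 := by linarith [hPar.α1]
  have hP0 : 0 ≤ P := by linarith [hPar.P1]
  have hB1 : 1 ≤ B := hk.trans hkB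
  have hε := hPar.ε0
  have hh0 := hPar.h0
  have hM0 : (0 : ℝ) < M := by exact_mod_cast hPar.M1
  set t := tb α c δ B with htd
  set θ := th α σ with hθd
  set s := sg α σ with hsd
  set nn := na α σ c δ k B with hnnd
  set q := (1 + ε) * h * p with hqd
  have hq1 : 0 < 1 - q := by linarith
  have hlnk := hLNK K α c δ n0 B M hα hc hPar.δ0 hR hB1 hn0
  rw [← htd] at hlnk
  have hrn : 1 + 2 * α * P + (2 * α * P) ^ θ + (α ^ 2 * P * (36 * α * P)) ^ θ * (1 + 1 / s) ≤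
      1 + ε := by
    have h3 := hPar.c3
    have e : α ^ 2 * P * (36 * α * P) = 36 * α ^ 3 * P ^ 2 := by ring
    rw [e]
    linarith
  have hna0 : 0 < nn := hna
  -- the numbers
  set v0 := (1 + ε) / (1 - q) with hv0
  set w0 := (er * (1 + ε) + (1 + ε) * h * g * v0) / (1 - q) with hw0
  have hv00 : 0 ≤ v0 := by positivity
  have hw00 : 0 ≤ w0 := by positivity
  have hkn : t ^ (-θ) * ((1 + ε) * h / α ^ 2) * nn ≤ (1 + ε) * h := by
    calc t ^ (-θ) * ((1 + ε) * h / α ^ 2) * nn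
        ≤ t ^ (-θ) * ((1 + ε) * h / α ^ 2) * (α ^ 2 * t ^ θ) :=
          mul_le_mul_of_nonneg_left hnt (by positivity)
      _ = (1 + ε) * h * (t ^ (-θ) * t ^ θ) := by field_simp
      _ = (1 + ε) * h := by rw [← Real.rpow_add ht]; simp
  have hVH : VH ν B M J (fun b => BX (w1 K B) B b) (ld α t δ M)
      (fun j => CT (BX (w1 K (M * B)) B) (TT M j))
      (fun j => VT (BX (w1 K (M * B)) B) (ld α t δ M) B (TT M j) (J * M)) φ
      (ENNReal.ofReal t) (ENNReal.ofReal (α ^ 2 * P * t)) (Kd α t (36 * α * P) M) θ u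
      (ENNReal.ofReal er) (ENNReal.ofReal (1 + ε)) (ENNReal.ofReal (nn * p))
      (ENNReal.ofReal (nn * g)) (ENNReal.ofReal (t ^ (-θ) * ((1 + ε) * h / α ^ 2)))
      (ENNReal.ofReal v0) (ENNReal.ofReal w0) := by
    constructor
    · exact hPar.M1
    · intro j hj
      exact (hINS K B M (ld α t δ M) hB1 hPar.M1 hlnk J j hj).1
    · exact hcc
    · exact hSTL K ν α σ c δ P k B hα hPar.σ0 θ1 hc hPar.δ0 hk hkB hP0 hQT
    · exact ENNReal.ofReal_ne_top
    · intro D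
      exact ENNReal.ofReal_ne_top
    · exact hSUP α t δ P (36 * α * P) M hα hα1 ht hPar.δ0 hP0 le_rfl et1 etd
    · exact θ0
    · exact θ1
    · exact mu
    · exact hφ
    · exact um
    · exact hu
    · intro q'
      exact (hEST α t θ s (36 * α * P) P M J q' hα hα1 ht θ0 θ1 hsθ hs et0 et1 hP0 a2P
        hPar.M1).trans (ENNReal.ofReal_le_ofReal hrn)
    · refine ((hSTM K ν α σ c δ k B hα hPar.σ0 θ1 hc hPar.δ0 hk hkB (J * M)).1).trans ?_
      rw [ENNReal.ofReal_mul hna0.le]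
      exact mul_le_mul' le_rfl hQN
    · exact hh (J * M)
    · refine (hKHT α t θ s (36 * α * P) M (J * M) hα ht θ0 θ1 hsθ hs et0 et1 hPar.M1).trans
        (ENNReal.ofReal_le_ofReal (mul_le_mul_of_nonneg_left ?_ (by positivity)))
      rw [le_div_iff₀ (by positivity)]
      have := hPar.c1
      linarith
    · rw [← ENNReal.ofReal_mul (by positivity), ← ENNReal.ofReal_mul (by positivity),
        ← ENNReal.ofReal_add (by positivity) (by positivity)]
      apply ENNReal.ofReal_le_ofReal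
      have h1 : t ^ (-θ) * ((1 + ε) * h / α ^ 2) * (nn * p) ≤ q := by
        calc t ^ (-θ) * ((1 + ε) * h / α ^ 2) * (nn * p) =
            t ^ (-θ) * ((1 + ε) * h / α ^ 2) * nn * p := by ring
          _ ≤ (1 + ε) * h * p := mul_le_mul_of_nonneg_right hkn p0
      have h2 : (1 + ε) + q * v0 = v0 := by
        rw [hv0]
        field_simp
        ring
      calc 1 + ε + t ^ (-θ) * ((1 + ε) * h / α ^ 2) * (nn * p) * v0 ≤ 1 + ε + q * v0 := by
            gcongr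
        _ = v0 := h2
    · rw [← ENNReal.ofReal_mul er0, ← ENNReal.ofReal_mul (by positivity),
        ← ENNReal.ofReal_mul (by positivity), ← ENNReal.ofReal_mul (by positivity),
        ← ENNReal.ofReal_mul (by positivity),
        ← ENNReal.ofReal_add (by positivity) (by positivity),
        ← ENNReal.ofReal_add (by positivity) (by positivity)]
      apply ENNReal.ofReal_le_ofReal
      have h1 : t ^ (-θ) * ((1 + ε) * h / α ^ 2) * (nn * p) ≤ q := by
        calc t ^ (-θ) * ((1 + ε) * h / α ^ 2) * (nn * p) =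
            t ^ (-θ) * ((1 + ε) * h / α ^ 2) * nn * p := by ring
          _ ≤ (1 + ε) * h * p := mul_le_mul_of_nonneg_right hkn p0
      have h3 : t ^ (-θ) * ((1 + ε) * h / α ^ 2) * (nn * g) ≤ (1 + ε) * h * g := by
        calc t ^ (-θ) * ((1 + ε) * h / α ^ 2) * (nn * g) =
            t ^ (-θ) * ((1 + ε) * h / α ^ 2) * nn * g := by ring
          _ ≤ (1 + ε) * h * g := mul_le_mul_of_nonneg_right hkn g0
      have h2 : er * (1 + ε) + q * w0 + (1 + ε) * h * g * v0 = w0 := by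
        have h4 : w0 * (1 - q) = er * (1 + ε) + (1 + ε) * h * g * v0 := by
          rw [hw0]
          field_simp
        linarith
      calc er * (1 + ε) + t ^ (-θ) * ((1 + ε) * h / α ^ 2) * (nn * p) * w0 +
            t ^ (-θ) * ((1 + ε) * h / α ^ 2) * (nn * g) * v0
          ≤ er * (1 + ε) + q * w0 + (1 + ε) * h * g * v0 := by gcongr
        _ = w0 := h2
  have hasp := hASP ν B M J _ _ _ _ φ _ _ _ θ u _ _ _ _ _ _ _ hVH (ENNReal.ofReal (M * (1 + ε)))
    ((hSHT α t θ s (36 * α * P) P M (J * M) hα hα1 ht θ0 θ1 hsθ hs et0 et1 hP0 a2P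
      hPar.M1).trans (ENNReal.ofReal_le_ofReal (mul_le_mul_of_nonneg_left hrn hM0.le)))
  refine le_trans (Finset.sum_le_sum fun j hj => lintegral_mono fun x => hmono
    ((hINS K B M (ld α t δ M) hB1 hPar.M1 hlnk J j (Finset.mem_range.1 hj)).2 x)) (hasp.trans ?_)
  refine add_le_add le_rfl (le_of_eq ?_)
  rw [← ENNReal.ofReal_mul (by positivity), ← ENNReal.ofReal_mul (by positivity),
    ← ENNReal.ofReal_add (by positivity) (by positivity), ← ENNReal.ofReal_mul (by positivity)]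
  congr 1
  rw [hw0, hv0]
  have h5 : (1 + ε) * h * p = q := rfl
  field_simp
  rw [hqd]
  ring

end Pool.Agent.H99.CE
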