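import Pool.Agent.H99.CE.ST0

set_option autoImplicit false

open MeasureTheory ProbabilityTheory Filter Topology
open scoped ENNReal
open Pool.Agent.H95 Pool.Agent.H95.Cop Pool.Agent.H96.Cop Pool.Agent.H99.CE

namespace Pool.Agent.H99.CE

theorem pf_ST1 (hPFM : T_PFM) (hINS : T_INS) (hCCT : T_CCT) (hASP : T_ASP) (hLNK : T_LNK)
    (hSUP : T_SUP) (hKHT : T_KHT) (hSHT : T_SHT) (hEST : T_EST) (hCBT : T_CBT) (hNAT : T_NAT)
    (hSTL : T_STL) (hSTM : T_STM) : T_ST1 := by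
  intro K ν _ α σ c δ h P ε X M n0 k B hPar hc hR hk hkB hn0 hX hQT p p0 p1 hQN
  obtain ⟨q0, q1, hh8, et0, et1, etd, a2P, a22P, θ0, θ1⟩ := st_real hPar p0 p1
  obtain ⟨hna, ht, hnM, htM, hn, hsθ, hs, hnt⟩ :=
    hNAT α σ c δ k B M hPar.α0 hPar.σ0 hc hPar.δ0 hk hkB hPar.M1
  have hα := hPar.α0
  have hε := hPar.ε0
  have hP0 : 0 ≤ P := by linarith [hPar.P1]
  have hM0 : (0 : ℝ) < M := by exact_mod_cast hPar.M1
  have hcore := fun J => st_core hINS hASP hLNK hSUP hKHT hSHT hEST hNAT hSTL hSTM K ν hPar hc hR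
    hk hkB hn0 hQT p0 p1 (g := 0) (er := 1) le_rfl zero_le_one hQN
    (φ := fun x => x ^ th α σ) (u := fun _ => 0) (hCCT.1 _ θ0 θ1)
    (fun x y hxy => ENNReal.rpow_le_rpow hxy θ0.le) measurable_const (fun x _ => by simp)
    (fun _ _ _ _ => le_rfl) (fun _ _ _ _ _ _ => by simp) (fun n => by simp) J
  unfold QT
  rw [hnM]
  apply ENNReal.div_le_of_le_mul
  apply ENNReal.tsum_le_of_sum_range_le
  intro J
  refine (hcore J).trans ?_
  have hcb := (hCBT α (tb α c δ B) (th α σ) (sg α σ) (36 * α * P) P M J hα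
    (by linarith [hPar.α1]) ht θ0 θ1 hsθ hs et0 et1 hP0 a2P hPar.M1).1
  have hreal := st_cb hNAT hPar hc hk hkB hX
  have hq1 : 0 < 1 - (1 + ε) * h * p := by linarith
  have hh0 := hPar.h0
  refine (add_le_add hcb le_rfl).trans ?_
  rw [← ENNReal.ofReal_add (by positivity) (by positivity), ← ENNReal.ofReal_mul (by positivity)]
  apply ENNReal.ofReal_le_ofReal
  have h0 : 0 ≤ (α ^ 2 * P * tb α c δ B * M) ^ th α σ * (4 + 1 / sg α σ) := by positivity
  have h1 : (M : ℝ) * na α σ c δ k B * ((1 + ε) ^ 2 * (0 / (1 - (1 + ε) * h * p) ^ 2 +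
      1 * p / (1 - (1 + ε) * h * p))) =
      ((1 + ε) ^ 2 * p / (1 - (1 + ε) * h * p)) * (M * na α σ c δ k B) := by
    field_simp
    ring
  rw [h1, add_mul]
  linarith

end Pool.Agent.H99.CE
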